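import Pool.Agent.Y757.EM.Int

set_option autoImplicit false

/-! The set of points near which zeta is large on the critical line. -/

namespace Pool.Agent.Y757.LM

open MeasureTheory Set Filter Topology Pool.Agent.Y757.LS Pool.Agent.Y757.EM Real
open scoped ENNReal

noncomputable section

/-- the square of `GG` -/
def F2 (z : ℂ) : ℂ := GG z ^ 2

lemma F2_strip : StripF F2 (-(1/4)) 3 := by
  refine ⟨GG_measurable.pow_const 2, fun z h0 _ => (GG_analyticAt (by linarith)).pow 2, ?_⟩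
  obtain ⟨C, hC, h⟩ := vv_upper
  refine ⟨2 * (C + 4), by positivity, fun z h0 h1 => ?_⟩
  have h2 := h (z.re - 1 / 2) z.im (by linarith) (by linarith)
  have e : pt (z.re - 1 / 2) z.im = z := by
    apply Complex.ext
    · rw [pt_re]; ring
    · rw [pt_im]
  unfold vv at h2
  rw [e] at h2
  have h3 := log_one_add_le |z.im| (abs_nonneg _)
  have h4 := abs_nonneg z.im
  have h5 : log⁺ ‖F2 z‖ = 2 * log⁺ ‖GG z‖ := by
    unfold F2
    rw [norm_pow, Real.posLog_pow]
    norm_num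
  rw [h5]
  nlinarith [mul_nonneg hC h4]

lemma uS_F2 (s t : ℝ) : uS F2 s t = ENNReal.ofReal (‖GG (pt s t)‖ ^ 4) := by
  unfold uS F2
  rw [norm_pow, ← pow_mul]

/-- lower bound for the ratio -/
lemma zeta_le_GG {s t : ℝ} (hs : |s| ≤ 1) (ht : 1 ≤ |t|) :
    ‖riemannZeta (pt s t)‖ ≤ 6 * ‖GG (pt s t)‖ := by
  have hne : pt s t ≠ 1 := by
    intro h
    have := congrArg Complex.im h
    rw [pt_im, Complex.one_im] at this
    rw [this, abs_zero] at ht
    linarith
  have hs' := abs_le.1 hs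
  have h3 : pt s t + 3 ≠ 0 := add_three_ne (by rw [pt_re]; linarith)
  rw [GG_of_ne hne, norm_mul, norm_div]
  have h4 : |t| ≤ ‖pt s t - 1‖ := by
    have := Complex.abs_im_le_norm (pt s t - 1)
    rwa [Complex.sub_im, Complex.one_im, sub_zero, pt_im] at this
  have h5 : ‖pt s t + 3‖ ≤ 6 * |t| := by
    have h6 := Complex.norm_le_abs_re_add_abs_im (pt s t + 3)
    have e1 : (pt s t + 3).re = 1 / 2 + s + 3 := by rw [Complex.add_re, pt_re]; simp
    have e2 : (pt s t + 3).im = t := by rw [Complex.add_im, pt_im]; simp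
    rw [e1, e2] at h6
    have h7 : |1 / 2 + s + 3| ≤ 5 := by rw [abs_le]; constructor <;> linarith
    linarith
  have h6 : 0 < ‖pt s t + 3‖ := norm_pos_iff.2 h3
  have h7 : 1 ≤ 6 * (‖pt s t - 1‖ / ‖pt s t + 3‖) := by
    rw [← mul_div_assoc, le_div_iff₀ h6]
    linarith
  calc ‖riemannZeta (pt s t)‖ = 1 * ‖riemannZeta (pt s t)‖ := (one_mul _).symm
    _ ≤ 6 * (‖pt s t - 1‖ / ‖pt s t + 3‖) * ‖riemannZeta (pt s t)‖ :=
        mul_le_mul_of_nonneg_right h7 (norm_nonneg _)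
    _ = _ := by ring

/-- the majorant -/
def Hh (h t : ℝ) : ℝ≥0∞ := ENNReal.ofReal ((1 + |t|) ^ (4 * h) * (1 + ‖GG (pt h t)‖ ^ 4))

lemma Hh_meas (h : ℝ) : Measurable (Hh h) := by
  unfold Hh
  refine Measurable.ennreal_ofReal ?_
  refine Measurable.mul ?_ (measurable_const.add (((GG_measurable.comp (pt_meas h)).norm).pow_const 4))
  exact (measurable_const.add measurable_norm).pow_const _

lemma refl4 : ∃ C : ℝ, 1 ≤ C ∧ ∀ h t : ℝ, 0 ≤ h → h ≤ 1 / 4 →
    uS F2 (-h) t ≤ ENNReal.ofReal C * Hh h t ∧ uS F2 h t ≤ ENNReal.ofReal C * Hh h t := by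
  obtain ⟨K, hK, hR⟩ := zeta_refl
  obtain ⟨C1, hC1⟩ := vv_upper
  obtain ⟨hC10, hC1⟩ := hC1
  set M : ℝ := Real.exp (C1 + 4 * Real.log 2) with hM
  have hM1 : 1 ≤ M := Real.one_le_exp (by have := Real.log_nonneg (by norm_num : (1:ℝ) ≤ 2); positivity)
  refine ⟨max (M ^ 4) ((6 * Real.exp K) ^ 4), (one_le_pow₀ hM1).trans (le_max_left _ _), fun h t hh hh1 => ?_⟩
  set D : ℝ := max (M ^ 4) ((6 * Real.exp K) ^ 4) with hD
  have hD1 : 1 ≤ D := (one_le_pow₀ hM1).trans (le_max_left _ _)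
  have hp1 : 1 ≤ (1 + |t|) ^ (4 * h) := Real.one_le_rpow (by linarith [abs_nonneg t]) (by positivity)
  have hg0 : 0 ≤ ‖GG (pt h t)‖ ^ 4 := by positivity
  unfold Hh
  rw [uS_F2, uS_F2, ← ENNReal.ofReal_mul (by linarith)]
  constructor
  · apply ENNReal.ofReal_le_ofReal
    rcases lt_or_ge |t| 1 with ht | ht
    · have h1 := hC1 (-h) t (by linarith) (by linarith)
      unfold vv at h1
      have h2 : ‖GG (pt (-h) t)‖ ≤ M := by
        rcases (norm_nonneg (GG (pt (-h) t))).eq_or_lt with h3 | h3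
        · rw [← h3]; linarith
        · rw [← Real.exp_log h3]
          apply Real.exp_le_exp.2
          refine (le_max_right 0 _).trans ?_
          rw [← Real.posLog_apply] 
          refine h1.trans ?_
          have : Real.log (1 + |t|) ≤ Real.log 2 :=
            Real.log_le_log (by linarith [abs_nonneg t]) (by linarith)
          linarith
      calc ‖GG (pt (-h) t)‖ ^ 4 ≤ M ^ 4 := pow_le_pow_left₀ (norm_nonneg _) h2 4
        _ ≤ D := le_max_left _ _
        _ = D * (1 * (1 + 0)) := by ring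
        _ ≤ D * ((1 + |t|) ^ (4 * h) * (1 + ‖GG (pt h t)‖ ^ 4)) := by gcongr
    · have ht0 : t ≠ 0 := by
        intro h
        rw [h, abs_zero] at ht
        linarith
      have h1 : ‖GG (pt (-h) t)‖ ≤ ‖riemannZeta (pt (-h) t)‖ := GG_le_zeta (by linarith) ht0
      have h2 := (hR h t hh (by linarith) ht).2
      have e1 : (1 / 2 - h + t * Complex.I : ℂ) = pt (-h) t := by unfold pt; push_cast; ring
      have e2 : (1 / 2 + h + t * Complex.I : ℂ) = pt h t := by unfold pt; ring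
      rw [e1, e2] at h2
      have h3 := zeta_le_GG (s := h) (by rw [abs_le]; constructor <;> linarith) ht
      have h4 : |t| ^ h ≤ (1 + |t|) ^ h := Real.rpow_le_rpow (abs_nonneg _) (by linarith) hh
      have h5 : ‖GG (pt (-h) t)‖ ≤ 6 * Real.exp K * (1 + |t|) ^ h * ‖GG (pt h t)‖ := by
        calc ‖GG (pt (-h) t)‖ ≤ Real.exp K * |t| ^ h * ‖riemannZeta (pt h t)‖ := h1.trans h2
          _ ≤ Real.exp K * (1 + |t|) ^ h * (6 * ‖GG (pt h t)‖) := by gcongr
          _ = _ := by ring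
      calc ‖GG (pt (-h) t)‖ ^ 4 ≤ (6 * Real.exp K * (1 + |t|) ^ h * ‖GG (pt h t)‖) ^ 4 :=
            pow_le_pow_left₀ (norm_nonneg _) h5 4
        _ = (6 * Real.exp K) ^ 4 * ((1 + |t|) ^ (4 * h) * ‖GG (pt h t)‖ ^ 4) := by
            have : (1 + |t|) ^ (4 * h) = ((1 + |t|) ^ h) ^ 4 := by
              rw [← Real.rpow_natCast, ← Real.rpow_mul (by positivity)]
              congr 1
              push_cast; ring
            rw [this]; ring
        _ ≤ D * ((1 + |t|) ^ (4 * h) * (1 + ‖GG (pt h t)‖ ^ 4)) := by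
            have : (6 * Real.exp K) ^ 4 ≤ D := le_max_right _ _
            gcongr
            linarith
  · apply ENNReal.ofReal_le_ofReal
    calc ‖GG (pt h t)‖ ^ 4 ≤ 1 * (1 * (1 + ‖GG (pt h t)‖ ^ 4)) := by linarith
      _ ≤ D * ((1 + |t|) ^ (4 * h) * (1 + ‖GG (pt h t)‖ ^ 4)) := by gcongr

lemma ker_harnack {h : ℝ} (hh : 0 < h) (a y : ℝ) (ha : |a| ≤ 1) :
    ker h (y - a) ≤ Real.exp (π / (2 * h)) * ker h y := by
  unfold Pool.Agent.Y757.LS.ker
  have hc : Real.cosh (π * y / (2 * h)) ≤ Real.exp (π / (2 * h)) * Real.cosh (π * (y - a) / (2 * h)) := by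
    set b : ℝ := π * (y - a) / (2 * h) with hb
    have e : π * y / (2 * h) = b + π * a / (2 * h) := by rw [hb]; ring
    have ha' := abs_le.1 ha
    have hpi := Real.pi_pos
    have h1 : π * a / (2 * h) ≤ π / (2 * h) := by gcongr; nlinarith
    have h2 : -(π / (2 * h)) ≤ π * a / (2 * h) := by
      rw [← neg_div]; gcongr; nlinarith
    rw [e, Real.cosh_eq, Real.cosh_eq]
    have h3 : Real.exp (b + π * a / (2 * h)) ≤ Real.exp (π / (2 * h)) * Real.exp b := by
      rw [← Real.exp_add]; apply Real.exp_le_exp.2; linarith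
    have h4 : Real.exp (-(b + π * a / (2 * h))) ≤ Real.exp (π / (2 * h)) * Real.exp (-b) := by
      rw [← Real.exp_add]; apply Real.exp_le_exp.2; linarith
    linarith
  have h1 := Real.cosh_pos (π * y / (2 * h))
  have h2 := Real.cosh_pos (π * (y - a) / (2 * h))
  rw [← mul_div_assoc, mul_one, div_le_div_iff₀ (by positivity) (by positivity), one_mul]
  calc 2 * h * Real.cosh (π * y / (2 * h)) ≤ 2 * h * (Real.exp (π / (2 * h)) * Real.cosh (π * (y - a) / (2 * h))) := by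
        gcongr
    _ = _ := by ring

/-- the averages -/
def Ph (h : ℝ) : ℝ → ℝ≥0∞ := Kop (kM h) (Hh h)

lemma Ph_meas {h : ℝ} (hh : 0 < h) : Measurable (Ph h) := by
  have := (kM_good hh).finite
  exact Kop_meas (Hh_meas h)

lemma Ph_harnack {h : ℝ} (hh : 0 < h) (a t : ℝ) (ha : |a| ≤ 1) :
    Ph h (t + a) ≤ ENNReal.ofReal (Real.exp (π / (2 * h))) * Ph h t := by
  unfold Ph Kop
  have m1 : Measurable (fun y : ℝ => Hh h (t + a + y)) := (Hh_meas h).comp (measurable_const_add _)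
  have m2 : Measurable (fun y : ℝ => Hh h (t + y)) := (Hh_meas h).comp (measurable_const_add _)
  rw [kM_lintegral hh m1, kM_lintegral hh m2, ← lintegral_const_mul' _ _ ENNReal.ofReal_ne_top]
  have h1 : ∫⁻ y, ENNReal.ofReal (ker h y) * Hh h (t + a + y) =
      ∫⁻ y, ENNReal.ofReal (ker h (y - a)) * Hh h (t + y) := by
    have h2 := lintegral_add_right_eq_self (μ := (volume : Measure ℝ))
      (fun y => ENNReal.ofReal (ker h (y - a)) * Hh h (t + y)) a
    rw [← h2]
    refine lintegral_congr fun y => ?_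
    rw [add_sub_cancel_right]
    congr 2
    ring
  rw [h1]
  refine lintegral_mono fun y => ?_
  rw [← mul_assoc, ← ENNReal.ofReal_mul (Real.exp_pos _).le]
  gcongr
  exact ker_harnack hh a y ha

/-- pointwise bound by the averages -/
lemma point {h : ℝ} (hh : 0 < h) (hh1 : h ≤ 1 / 4) : ∃ C : ℝ, 1 ≤ C ∧ ∀ t u : ℝ, |u - t| ≤ 1 →
    ENNReal.ofReal (‖GG (pt 0 u)‖ ^ 4) ≤ ENNReal.ofReal C * Ph h t := by
  obtain ⟨C, hC, hr⟩ := refl4
  have hsub := sub_sq F2_strip
  refine ⟨C * Real.exp (π / (2 * h)), ?_, fun t u hu => ?_⟩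
  · have : 1 ≤ Real.exp (π / (2 * h)) := Real.one_le_exp (by positivity)
    nlinarith
  have h1 := hsub.2 0 h u hh (by linarith) (by linarith)
  rw [zero_sub, zero_add, uS_F2] at h1
  have hhalf : ENNReal.ofReal (1 / 2) + ENNReal.ofReal (1 / 2) = 1 := by
    rw [← ENNReal.ofReal_add (by norm_num) (by norm_num)]
    norm_num
  have k1 : Kop (kM h) (uS F2 (-h)) u ≤ ENNReal.ofReal C * Ph h u := by
    unfold Ph
    refine (Kop_mono (fun t => (hr h t hh.le hh1).1) u).trans (le_of_eq ?_)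
    unfold Kop
    rw [lintegral_const_mul' _ _ ENNReal.ofReal_ne_top]
  have k2 : Kop (kM h) (uS F2 h) u ≤ ENNReal.ofReal C * Ph h u := by
    unfold Ph
    refine (Kop_mono (fun t => (hr h t hh.le hh1).2) u).trans (le_of_eq ?_)
    unfold Kop
    rw [lintegral_const_mul' _ _ ENNReal.ofReal_ne_top]
  have h2 : ENNReal.ofReal (‖GG (pt 0 u)‖ ^ 4) ≤ ENNReal.ofReal C * Ph h u := by
    calc ENNReal.ofReal (‖GG (pt 0 u)‖ ^ 4) ≤ _ := h1
      _ ≤ ENNReal.ofReal (1 / 2) * (ENNReal.ofReal C * Ph h u) +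
          ENNReal.ofReal (1 / 2) * (ENNReal.ofReal C * Ph h u) := by gcongr
      _ = _ := by rw [← add_mul, hhalf, one_mul]
  have h3 := Ph_harnack hh (u - t) t hu
  rw [add_sub_cancel] at h3
  calc _ ≤ ENNReal.ofReal C * Ph h u := h2
    _ ≤ ENNReal.ofReal C * (ENNReal.ofReal (Real.exp (π / (2 * h))) * Ph h t) := by gcongr
    _ = _ := by rw [← mul_assoc, ← ENNReal.ofReal_mul (by linarith)]

lemma Hh_PB {h : ℝ} (hh : 0 < h) (hh1 : h ≤ 1 / 4) : ∃ A : ℝ, 0 ≤ A ∧ PB 0 (Hh h) A (1 + 4 * h) := by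
  obtain ⟨A, hA, hm⟩ := mom (k := 2) (by norm_num) hyp2 hh
  have h1 := hm h le_rfl (by linarith)
  refine ⟨2 + A, by positivity, fun T hT => ?_⟩
  have h2 := h1 T hT
  have hc := (PB_const le_rfl (c := 1) (p := 1) (by norm_num) le_rfl) T hT
  have hp0 : 0 ≤ (1 + T) ^ (4 * h) := Real.rpow_nonneg (by linarith) _
  have hb : ∀ t ∈ Icc (-T) T, Hh h t ≤ ENNReal.ofReal ((1 + T) ^ (4 * h)) *
      (ENNReal.ofReal 1 + ENNReal.ofReal (‖GG (pt h t)‖ ^ (2 * 2))) := by
    intro t ht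
    unfold Hh
    rw [← ENNReal.ofReal_add zero_le_one (by positivity), ← ENNReal.ofReal_mul hp0]
    apply ENNReal.ofReal_le_ofReal
    have h3 : |t| ≤ T := abs_le.2 ⟨ht.1, ht.2⟩
    have h4 := abs_nonneg t
    have h5 : (1 + |t|) ^ (4 * h) ≤ (1 + T) ^ (4 * h) := by gcongr
    norm_num
    gcongr
  have m1 : Measurable (fun t => ENNReal.ofReal (‖GG (pt h t)‖ ^ (2 * 2))) :=
    (((GG_measurable.comp (pt_meas h)).norm).pow_const _).ennreal_ofReal
  calc ∫⁻ t in Icc (-T) T, Hh h t ≤ ∫⁻ t in Icc (-T) T, ENNReal.ofReal ((1 + T) ^ (4 * h)) *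
        (ENNReal.ofReal 1 + ENNReal.ofReal (‖GG (pt h t)‖ ^ (2 * 2))) :=
        setLIntegral_mono' measurableSet_Icc hb
    _ = ENNReal.ofReal ((1 + T) ^ (4 * h)) * ((∫⁻ t in Icc (-T) T, ENNReal.ofReal 1) +
          ∫⁻ t in Icc (-T) T, ENNReal.ofReal (‖GG (pt h t)‖ ^ (2 * 2))) := by
        rw [lintegral_const_mul' _ _ ENNReal.ofReal_ne_top, lintegral_add_left measurable_const]
    _ ≤ ENNReal.ofReal ((1 + T) ^ (4 * h)) * (ENNReal.ofReal (2 * 1 * (1 + T) ^ (1:ℝ)) +
          ENNReal.ofReal (A * (1 + T) ^ (1:ℝ))) := by gcongr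
    _ = ENNReal.ofReal ((2 + A) * (1 + T) ^ (1 + 4 * h)) := by
        rw [← ENNReal.ofReal_add (by positivity) (by positivity), ← ENNReal.ofReal_mul hp0]
        congr 1
        rw [Real.rpow_add (by linarith : 0 < 1 + T)]
        ring

lemma Ph_PB {h : ℝ} (hh : 0 < h) (hh1 : h ≤ 1 / 4) : ∃ A : ℝ, 0 ≤ A ∧ PB 0 (Ph h) A (1 + 4 * h) := by
  obtain ⟨A, hA, hm⟩ := Hh_PB hh hh1
  exact ⟨_, by positivity, PB.kop le_rfl (kM_good hh) (Hh_meas h) hA (by linarith) (by linarith) hm⟩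

/-- the uniform measure of an interval -/
def un (W : ℝ) : Measure ℝ := volume.restrict (Icc (-W) W)

lemma un_wt {W : ℝ} (hW : 0 ≤ W) : ∫⁻ y, wt y ∂(un W) ≤ ENNReal.ofReal (2 * W * (1 + W) ^ 2) := by
  unfold un
  calc ∫⁻ y in Icc (-W) W, wt y ≤ ∫⁻ y in Icc (-W) W, ENNReal.ofReal ((1 + W) ^ 2) := by
        refine setLIntegral_mono' measurableSet_Icc fun y hy => ?_
        unfold wt
        apply ENNReal.ofReal_le_ofReal
        have h1 : |y| ≤ W := abs_le.2 ⟨hy.1, hy.2⟩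
        have := abs_nonneg y
        gcongr
    _ = _ := by
        rw [setLIntegral_const, Real.volume_Icc, ← ENNReal.ofReal_mul (by positivity)]
        congr 1
        ring

lemma un_good {W : ℝ} (hW : 0 ≤ W) : Good (un W) (2 * W) := by
  constructor
  · unfold un
    rw [Measure.restrict_apply MeasurableSet.univ, univ_inter, Real.volume_Icc]
    congr 1
    ring
  · exact ne_top_of_le_ne_top ENNReal.ofReal_ne_top (un_wt hW)

/-- the bad set -/
def bad (κ X : ℝ) : Set ℝ := {t : ℝ | X ≤ t ∧ t ≤ 8 * X ∧ ∃ u : ℝ, |u - t| ≤ Real.log t ∧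
  t ^ κ < ‖riemannZeta ⟨1 / 2, u⟩‖}

/-- the measure of the bad set -/
theorem bad_le {κ ε : ℝ} (hκ : 0 ≤ κ) (hε : 0 < ε) : ∃ X0 : ℝ, 1 ≤ X0 ∧ ∀ X : ℝ, X0 ≤ X →
    volume (bad κ X) ≤ ENNReal.ofReal (X ^ (1 - 4 * κ + ε)) := by
  set h : ℝ := min (1 / 4) (ε / 16) with hh
  have hh0 : 0 < h := lt_min (by norm_num) (by positivity)
  have hh1 : h ≤ 1 / 4 := min_le_left _ _
  have hh2 : 4 * h ≤ ε / 4 := by have := min_le_right (1 / 4) (ε / 16); rw [← hh] at this; linarith
  obtain ⟨C, hC, hpt⟩ := point hh0 hh1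
  obtain ⟨A, hA, hPB⟩ := Ph_PB hh0 hh1
  -- the final comparison of sizes
  have hev : ∀ᶠ X : ℝ in atTop, 6 ^ 4 * C * (A * (2 * (Real.log (8 * X) + 1) * (1 + (Real.log (8 * X) + 1)) ^ 2) *
      (1 + 8 * X) ^ (1 + 4 * h)) ≤ X ^ (1 + ε) := by
    set B : ℝ := 6 ^ 4 * C * (A * (2 * 9 * 81) * 9 ^ (2:ℝ)) with hB
    have hB0 : 0 ≤ B := by positivity
    have h1 : ∀ᶠ X : ℝ in atTop, Real.log X ≤ X ^ (ε / 8) := by
      have := (isLittleO_log_rpow_atTop (by positivity : 0 < ε / 8)).bound one_pos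
      filter_upwards [this, eventually_ge_atTop 1] with X hX hX1
      rw [one_mul, Real.norm_of_nonneg (Real.log_nonneg hX1),
        Real.norm_of_nonneg (by positivity)] at hX
      exact hX
    have h2 : ∀ᶠ X : ℝ in atTop, B ≤ X ^ (ε / 4) :=
      (tendsto_rpow_atTop (by positivity : 0 < ε / 4)).eventually_ge_atTop B
    filter_upwards [h1, h2, eventually_ge_atTop (Real.exp 1)] with X g1 g2 g3
    have hX1 : 1 ≤ X := le_trans (Real.one_le_exp (by norm_num)) g3
    have hX0 : 0 < X := by linarith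
    have hl1 : 1 ≤ Real.log X := by rw [Real.le_log_iff_exp_le hX0]; exact g3
    have hl8 : Real.log (8 * X) ≤ 7 * Real.log X + Real.log X := by
      rw [Real.log_mul (by norm_num) hX0.ne']
      have : Real.log 8 ≤ 7 := by
        have := Real.log_le_sub_one_of_pos (by norm_num : (0:ℝ) < 8)
        linarith
      linarith
    have hl80 : 0 ≤ Real.log (8 * X) := Real.log_nonneg (by linarith)
    have e1 : Real.log (8 * X) + 1 ≤ 9 * X ^ (ε / 8) := by linarith
    have e2 : 1 + (Real.log (8 * X) + 1) ≤ 9 * X ^ (ε / 8) := by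
      have : Real.log (8 * X) + 2 ≤ 9 * Real.log X ∨ True := Or.inr trivial
      have h8 : Real.log 8 ≤ 2.08 + 0.02 := by
        have : Real.log 8 = 3 * Real.log 2 := by
          rw [show (8:ℝ) = 2 ^ 3 by norm_num, Real.log_pow]; norm_num
        rw [this]
        have := Real.log_two_lt_d9
        linarith
      have : Real.log (8 * X) = Real.log 8 + Real.log X := Real.log_mul (by norm_num) hX0.ne'
      linarith
    have e3 : (1 + 8 * X) ^ (1 + 4 * h) ≤ 9 ^ (2:ℝ) * X ^ (1 + 4 * h) := by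
      calc (1 + 8 * X) ^ (1 + 4 * h) ≤ (9 * X) ^ (1 + 4 * h) := by
            apply Real.rpow_le_rpow (by positivity) (by linarith) (by positivity)
        _ = 9 ^ (1 + 4 * h) * X ^ (1 + 4 * h) := Real.mul_rpow (by norm_num) hX0.le
        _ ≤ _ := by
            gcongr
            · norm_num
            · linarith
    have hp8 : 0 ≤ X ^ (ε / 8) := by positivity
    calc 6 ^ 4 * C * (A * (2 * (Real.log (8 * X) + 1) * (1 + (Real.log (8 * X) + 1)) ^ 2) *
          (1 + 8 * X) ^ (1 + 4 * h))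
        ≤ 6 ^ 4 * C * (A * (2 * (9 * X ^ (ε / 8)) * (9 * X ^ (ε / 8)) ^ 2) *
          (9 ^ (2:ℝ) * X ^ (1 + 4 * h))) := by gcongr
      _ = B * ((X ^ (ε / 8)) ^ 3 * X ^ (1 + 4 * h)) := by rw [hB]; ring
      _ = B * X ^ (3 * (ε / 8) + (1 + 4 * h)) := by
          have e5 : (X ^ (ε / 8)) ^ 3 = X ^ (3 * (ε / 8)) := by
            rw [← Real.rpow_natCast, ← Real.rpow_mul hX0.le]
            congr 1
            push_cast; ring
          rw [e5, ← Real.rpow_add hX0]
      _ ≤ X ^ (ε / 4) * X ^ (3 * (ε / 8) + (1 + 4 * h)) := by gcongr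
      _ = X ^ (ε / 4 + (3 * (ε / 8) + (1 + 4 * h))) := (Real.rpow_add hX0 _ _).symm
      _ ≤ _ := Real.rpow_le_rpow_of_exponent_le hX1 (by linarith)
  have hev2 : ∀ᶠ X : ℝ in atTop, Real.log (8 * X) + 1 ≤ X := by
    have := (isLittleO_log_rpow_atTop (by norm_num : (0:ℝ) < 1)).bound (by norm_num : (0:ℝ) < 1 / 2)
    filter_upwards [this, eventually_ge_atTop 100] with X hX hX1
    have hX0 : 0 < X := by linarith
    rw [Real.norm_of_nonneg (Real.log_nonneg (by linarith)), Real.rpow_one,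
      Real.norm_of_nonneg hX0.le] at hX
    have h8 : Real.log 8 ≤ 7 := by
      have := Real.log_le_sub_one_of_pos (by norm_num : (0:ℝ) < 8)
      linarith
    rw [Real.log_mul (by norm_num) hX0.ne']
    linarith
  obtain ⟨X1, hX1⟩ := eventually_atTop.1 (hev.and (hev2.and (eventually_ge_atTop 100)))
  refine ⟨max X1 1, le_max_right _ _, fun X hX => ?_⟩
  obtain ⟨g1, g2, g3⟩ := hX1 X ((le_max_left _ _).trans hX)
  have hX0 : 0 < X := by linarith
  set W : ℝ := Real.log (8 * X) + 1 with hW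
  have hW0 : 0 ≤ W := by
    have := Real.log_nonneg (by linarith : (1:ℝ) ≤ 8 * X)
    linarith
  have hPB2 := PB.kop le_rfl (un_good hW0) (Ph_meas hh0) hA (by linarith) (by linarith) hPB
  have hm2 : Measurable (Kop (un W) (Ph h)) := by
    have := (un_good hW0).finite
    exact Kop_meas (Ph_meas hh0)
  have hint := hPB2 (8 * X) (by linarith)
  -- the lower bound on the bad set
  set c : ℝ≥0∞ := ENNReal.ofReal (X ^ (4 * κ) / (6 ^ 4 * C)) with hc
  have hlow : bad κ X ⊆ {t | t ∈ Icc (-(8 * X)) (8 * X) ∧ c ≤ Kop (un W) (Ph h) t} := by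
    rintro t ⟨ht1, ht2, u, hu, hz⟩
    refine ⟨⟨by linarith, ht2⟩, ?_⟩
    have ht0 : 0 < t := by linarith
    have hlt : Real.log t ≤ W - 1 := by
      rw [hW, add_sub_cancel_right]
      exact Real.log_le_log ht0 ht2
    have hut : |u - t| ≤ W - 1 := hu.trans hlt
    have hu' := abs_le.1 hut
    have hu1 : 1 ≤ |u| := by
      have : 1 ≤ u := by linarith
      exact this.trans (le_abs_self u)
    have e : (⟨1 / 2, u⟩ : ℂ) = pt 0 u := by
      apply Complex.ext
      · rw [pt_re]; norm_num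
      · rw [pt_im]
    rw [e] at hz
    have h2 : t ^ κ ≤ 6 * ‖GG (pt 0 u)‖ := hz.le.trans (zeta_le_GG (by norm_num) hu1)
    have h3 : X ^ κ ≤ t ^ κ := Real.rpow_le_rpow hX0.le ht1 hκ
    have h4 : X ^ (4 * κ) / 6 ^ 4 ≤ ‖GG (pt 0 u)‖ ^ 4 := by
      have h5 : X ^ (4 * κ) = (X ^ κ) ^ 4 := by
        rw [← Real.rpow_natCast, ← Real.rpow_mul hX0.le]
        congr 1
        push_cast; ring
      rw [h5, div_le_iff₀ (by norm_num)]
      calc (X ^ κ) ^ 4 ≤ (6 * ‖GG (pt 0 u)‖) ^ 4 := by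
            apply pow_le_pow_left₀ (by positivity) (h3.trans h2)
        _ = _ := by ring
    have h5 : ∀ v : ℝ, |u - v| ≤ 1 → c ≤ Ph h v := by
      intro v hv
      have h6 := hpt v u hv
      have h7 : ENNReal.ofReal (X ^ (4 * κ) / 6 ^ 4) ≤ ENNReal.ofReal C * Ph h v :=
        (ENNReal.ofReal_le_ofReal h4).trans h6
      have hC0 : ENNReal.ofReal C ≠ 0 := by
        rw [Ne, ENNReal.ofReal_eq_zero, not_le]; linarith
      calc c = ENNReal.ofReal C⁻¹ * ENNReal.ofReal (X ^ (4 * κ) / 6 ^ 4) := by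
            rw [hc, ← ENNReal.ofReal_mul (by positivity)]
            congr 1
            field_simp
        _ ≤ ENNReal.ofReal C⁻¹ * (ENNReal.ofReal C * Ph h v) := by gcongr
        _ = Ph h v := by
            rw [← mul_assoc, ← ENNReal.ofReal_mul (by positivity), inv_mul_cancel₀ (by linarith),
              ENNReal.ofReal_one, one_mul]
    unfold Kop un
    calc c = c * 1 := (mul_one c).symm
      _ ≤ c * volume (Icc (u - t - 1) (u - t + 1)) := by
          gcongr
          rw [Real.volume_Icc]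
          have : u - t + 1 - (u - t - 1) = 2 := by ring
          rw [this, ENNReal.one_le_ofReal]
          norm_num
      _ = ∫⁻ y in Icc (u - t - 1) (u - t + 1), c := by rw [setLIntegral_const]
      _ ≤ ∫⁻ y in Icc (u - t - 1) (u - t + 1), Ph h (t + y) := by
          refine setLIntegral_mono' measurableSet_Icc fun y hy => ?_
          apply h5
          rw [abs_le]
          constructor <;> linarith [hy.1, hy.2]
      _ ≤ ∫⁻ y in Icc (-W) W, Ph h (t + y) := by
          apply lintegral_mono_set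
          intro y hy
          constructor <;> linarith [hy.1, hy.2]
  -- Chebyshev
  have hcheb : c * volume {t | t ∈ Icc (-(8 * X)) (8 * X) ∧ c ≤ Kop (un W) (Ph h) t} ≤
      ∫⁻ t in Icc (-(8 * X)) (8 * X), Kop (un W) (Ph h) t := by
    have h1 := mul_meas_ge_le_lintegral (μ := volume.restrict (Icc (-(8 * X)) (8 * X))) hm2 c
    refine le_trans (mul_le_mul_right ?_ c) h1
    have hms : MeasurableSet {x | c ≤ Kop (un W) (Ph h) x} := measurableSet_le measurable_const hm2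
    rw [Measure.restrict_apply hms]
    apply measure_mono
    rintro t ⟨ht1, ht2⟩
    exact ⟨ht2, ht1⟩
  have hfin : c * volume (bad κ X) ≤ ENNReal.ofReal (A * (2 * W * (1 + W) ^ 2) * (1 + 8 * X) ^ (1 + 4 * h)) := by
    calc c * volume (bad κ X) ≤ _ := (mul_le_mul_right (measure_mono hlow) c).trans hcheb
      _ ≤ ENNReal.ofReal (A * (∫⁻ y, wt y ∂(un W)).toReal * (1 + 8 * X) ^ (1 + 4 * h)) := hint
      _ ≤ _ := by
          apply ENNReal.ofReal_le_ofReal
          have h1 : (∫⁻ y, wt y ∂(un W)).toReal ≤ 2 * W * (1 + W) ^ 2 :=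
            ENNReal.toReal_le_of_le_ofReal (by positivity) (un_wt hW0)
          gcongr
  have hc0 : 0 < X ^ (4 * κ) / (6 ^ 4 * C) := by positivity
  calc volume (bad κ X) = ENNReal.ofReal (X ^ (4 * κ) / (6 ^ 4 * C))⁻¹ * (c * volume (bad κ X)) := by
        rw [← mul_assoc, hc, ← ENNReal.ofReal_mul (by positivity), inv_mul_cancel₀ hc0.ne',
          ENNReal.ofReal_one, one_mul]
    _ ≤ ENNReal.ofReal (X ^ (4 * κ) / (6 ^ 4 * C))⁻¹ *
        ENNReal.ofReal (A * (2 * W * (1 + W) ^ 2) * (1 + 8 * X) ^ (1 + 4 * h)) := by gcongr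
    _ = ENNReal.ofReal (X ^ (-(4 * κ)) * (6 ^ 4 * C * (A * (2 * W * (1 + W) ^ 2) *
          (1 + 8 * X) ^ (1 + 4 * h)))) := by
        rw [← ENNReal.ofReal_mul (by positivity)]
        congr 1
        rw [Real.rpow_neg hX0.le]
        field_simp
    _ ≤ ENNReal.ofReal (X ^ (-(4 * κ)) * X ^ (1 + ε)) := by
        apply ENNReal.ofReal_le_ofReal
        gcongr
    _ = _ := by
        rw [← Real.rpow_add hX0]
        congr 2
        ring

end

end Pool.Agent.Y757.LM
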