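import Pool.Agent.Y757.LM.Loc
import Pool.Agent.Y757.LM.Disc

set_option autoImplicit false

/-! Large deviations of the number of zeros in a short window and of the multiplicities. -/

namespace Pool.Agent.Y757.LM

open MeasureTheory Set Filter Topology Real
open Pool.Agent.TH809.MZ (ZZ cc window growth_weyl order_ne_top)
open scoped ENNReal

noncomputable section

/-- finiteness of the zeros in a compact set -/
theorem zeta_compact {K : Set ℂ} (hK : IsCompact K) : {s : ℂ | s ∈ K ∧ riemannZeta s = 0}.Finite := by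
  have hF : ∀ s : ℂ, s ≠ 1 → AnalyticAt ℂ riemannZeta s := fun s hs => by
    have : DifferentiableOn ℂ riemannZeta ({1}ᶜ : Set ℂ) := fun z hz =>
      (differentiableAt_riemannZeta hz).differentiableWithinAt
    exact this.analyticAt (isOpen_compl_singleton.mem_nhds hs)
  have h1 : ∀ᶠ s in 𝓝[≠] (1 : ℂ), riemannZeta s ≠ 0 := by
    have h := riemannZeta_residue_one
    have h3 := h.eventually_ne (one_ne_zero : (1 : ℂ) ≠ 0)
    filter_upwards [h3] with s hs h0
    rw [h0, mul_zero] at hs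
    exact hs rfl
  by_contra hinf
  have hinf : {s : ℂ | s ∈ K ∧ riemannZeta s = 0}.Infinite := hinf
  obtain ⟨x, hx, hacc⟩ := hinf.exists_accPt_of_subset_isCompact hK (fun s hs => hs.1)
  have hfreq : ∃ᶠ z in 𝓝[≠] x, riemannZeta z = 0 := by
    rw [accPt_iff_frequently_nhdsNE] at hacc
    exact hacc.mono fun z hz => hz.2
  by_cases hx1 : x = 1
  · subst hx1
    exact hfreq h1
  · have hU : IsPreconnected ({1}ᶜ : Set ℂ) :=
      (isConnected_compl_singleton_of_one_lt_rank (by simp) (1 : ℂ)).isPreconnected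
    have hz := AnalyticOnNhd.eqOn_zero_of_preconnected_of_frequently_eq_zero
      (f := riemannZeta) (U := ({1}ᶜ : Set ℂ)) (fun s hs => hF s hs) hU hx1 hfreq
    exact riemannZeta_ne_zero_of_one_le_re (s := 2) (by simp) (hz (by simp))

theorem ZZ_finite (T h : ℝ) : (ZZ T h).Finite := by
  have hcomp : IsCompact (Icc (0 : ℝ) 1 ×ℂ Icc (T - h) (T + h)) := isCompact_Icc.reProdIm isCompact_Icc
  refine (zeta_compact hcomp).subset ?_
  rintro s ⟨a1, a2, a3, a4⟩
  have := abs_le.1 a4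
  exact ⟨⟨⟨a2.le, a3.le⟩, ⟨by linarith, by linarith⟩⟩, a1⟩

/-- the number of zeros in the window -/
def NW (T h : ℝ) : ℕ := ∑ᶠ s ∈ ZZ T h, analyticOrderNatAt riemannZeta s

/-- the order of the zero on the critical line -/
def mm (t : ℝ) : ℕ := analyticOrderNatAt riemannZeta ⟨1 / 2, t⟩

lemma half_ne (t : ℝ) : (⟨1 / 2, t⟩ : ℂ) ≠ 1 := by
  intro h
  have := congrArg Complex.re h
  norm_num at this

lemma mm_pos {t : ℝ} (h : riemannZeta ⟨1 / 2, t⟩ = 0) : 1 ≤ mm t := by
  have ha : AnalyticAt ℂ riemannZeta ⟨1 / 2, t⟩ := by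
    have : DifferentiableOn ℂ riemannZeta ({1}ᶜ : Set ℂ) := fun z hz =>
      (differentiableAt_riemannZeta hz).differentiableWithinAt
    exact this.analyticAt (isOpen_compl_singleton.mem_nhds (half_ne t))
  have h2 : analyticOrderAt riemannZeta ⟨1 / 2, t⟩ ≠ 0 := ha.analyticOrderAt_ne_zero.2 h
  have h3 := order_ne_top (half_ne t)
  unfold mm
  rw [Nat.one_le_iff_ne_zero]
  intro h5
  apply h2
  rw [← Nat.cast_analyticOrderNatAt h3, h5]
  rfl

/-- the zeros on the critical line in the window -/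
lemma sum_le_NW {t h h' : ℝ} (hh : h' ≤ h) (S : Finset ℝ)
    (hS : ∀ u ∈ S, riemannZeta ⟨1 / 2, u⟩ = 0 ∧ |u - t| ≤ h') : ∑ u ∈ S, mm u ≤ NW t h := by
  classical
  have hfin := ZZ_finite t h
  unfold NW
  rw [finsum_mem_eq_finite_toFinset_sum _ hfin]
  have hinj : Function.Injective fun t : ℝ => (⟨1 / 2, t⟩ : ℂ) := by
    intro x y hxy
    have := congrArg Complex.im hxy
    simpa using this
  calc ∑ u ∈ S, mm u = ∑ s ∈ S.image (fun t : ℝ => (⟨1 / 2, t⟩ : ℂ)), analyticOrderNatAt riemannZeta s := by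
        rw [Finset.sum_image (fun x _ y _ hxy => hinj hxy)]
        rfl
    _ ≤ _ := by
        apply Finset.sum_le_sum_of_subset
        intro s hs
        obtain ⟨u, hu, rfl⟩ := Finset.mem_image.1 hs
        refine hfin.mem_toFinset.2 ⟨(hS u hu).1, by norm_num, by norm_num, ?_⟩
        exact (hS u hu).2.trans hh

lemma NW_mono {t h h' : ℝ} (hh : h' ≤ h) : NW t h' ≤ NW t h := by
  unfold NW
  rw [finsum_mem_eq_finite_toFinset_sum _ (ZZ_finite t h), finsum_mem_eq_finite_toFinset_sum _ (ZZ_finite t h')]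
  apply Finset.sum_le_sum_of_subset
  intro s hs
  rw [Set.Finite.mem_toFinset] at hs ⊢
  exact ⟨hs.1, hs.2.1, hs.2.2.1, hs.2.2.2.trans hh⟩

/-- the exponent -/
def ss (θ : ℝ) : ℝ := Real.sqrt (1 - 4 * π ^ 2 * θ ^ 2)

lemma ss_zero : ss 0 = 1 := by unfold ss; norm_num

lemma th_sq {θ : ℝ} (h0 : 0 ≤ θ) (h1 : θ < 1 / (2 * π)) : 4 * π ^ 2 * θ ^ 2 < 1 := by
  have hpi := Real.pi_pos
  have h2 : 2 * π * θ < 1 := by
    rw [lt_div_iff₀ (by positivity)] at h1
    linarith
  have h3 : 0 ≤ 2 * π * θ := by positivity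
  nlinarith

lemma ss_sq {θ : ℝ} (h0 : 0 ≤ θ) (h1 : θ < 1 / (2 * π)) : ss θ ^ 2 = 1 - 4 * π ^ 2 * θ ^ 2 := by
  unfold ss
  exact Real.sq_sqrt (by linarith [th_sq h0 h1])

lemma ss_pos {θ : ℝ} (h0 : 0 ≤ θ) (h1 : θ < 1 / (2 * π)) : 0 < ss θ := by
  unfold ss
  exact Real.sqrt_pos.2 (by linarith [th_sq h0 h1])

lemma ss_lt_one {θ : ℝ} (h0 : 0 < θ) : ss θ < 1 := by
  unfold ss
  rw [Real.sqrt_lt' one_pos]
  have : 0 < 4 * π ^ 2 * θ ^ 2 := by positivity
  linarith

lemma cc_lt {θ κ : ℝ} (h0 : 0 < θ) (h1 : θ < 1 / (2 * π)) (hκ0 : 0 ≤ κ) (hκ : κ < (1 - ss θ) / 4) :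
    cc κ < θ := by
  have hpi := Real.pi_pos
  have hs := ss_pos h0.le h1
  have hs2 := ss_sq h0.le h1
  unfold Pool.Agent.TH809.MZ.cc
  rw [div_lt_iff₀ hpi, Real.sqrt_lt' (by positivity)]
  nlinarith

/-- **large deviations of the number of zeros in a window** -/
theorem big_le {θ ε : ℝ} (h0 : 0 < θ) (h1 : θ < 1 / (2 * π)) (hε : 0 < ε) : ∃ h : ℝ, 0 < h ∧
    ∃ X0 : ℝ, 1 ≤ X0 ∧ ∀ X : ℝ, X0 ≤ X →
      volume {t : ℝ | X ≤ t ∧ t ≤ 8 * X ∧ θ * Real.log t - 1 ≤ (NW t h : ℝ)} ≤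
        ENNReal.ofReal (X ^ (ss θ + ε)) := by
  have hs := ss_pos h0.le h1
  have hs1 := ss_lt_one h0
  set κ : ℝ := max 0 ((1 - ss θ) / 4 - ε / 8) with hκ
  have hκ0 : 0 ≤ κ := le_max_left _ _
  have hκ1 : κ < (1 - ss θ) / 4 := max_lt (by linarith) (by linarith)
  have hκ2 : 1 - 4 * κ + ε / 2 ≤ ss θ + ε := by
    have := le_max_right 0 ((1 - ss θ) / 4 - ε / 8)
    rw [← hκ] at this
    linarith
  have hcc := cc_lt h0 h1 hκ0 hκ1
  set ε' : ℝ := (θ - cc κ) / 2 with hε'
  have hε'0 : 0 < ε' := by rw [hε']; linarith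
  obtain ⟨h, C, hh, H⟩ := window_loc hκ0 (by linarith) hε'0
  obtain ⟨X1, hX11, hX1⟩ := bad_le hκ0 (half_pos hε)
  refine ⟨h, hh, max X1 (Real.exp (4 + (|C| + 1) / ε' + 1)), hX11.trans (le_max_left _ _), fun X hX => ?_⟩
  have hXX1 : X1 ≤ X := (le_max_left _ _).trans hX
  have hX1' : 1 ≤ X := hX11.trans hXX1
  have hX0 : 0 < X := by linarith
  have hXe : Real.exp (4 + (|C| + 1) / ε' + 1) ≤ X := (le_max_right _ _).trans hX
  refine le_trans (measure_mono ?_) ((hX1 X hXX1).trans (ENNReal.ofReal_le_ofReal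
    (Real.rpow_le_rpow_of_exponent_le hX1' hκ2)))
  rintro t ⟨ht1, ht2, ht3⟩
  refine ⟨ht1, ht2, ?_⟩
  by_contra hno
  push Not at hno
  have ht0 : 0 < t := by linarith
  have hlog : 4 + (|C| + 1) / ε' + 1 ≤ Real.log t := by
    rw [Real.le_log_iff_exp_le ht0]
    linarith
  have hq : 0 ≤ (|C| + 1) / ε' := by positivity
  obtain ⟨-, hb⟩ := H t (by linarith) (by linarith) (fun y hy => hno (t + y) (by rwa [add_sub_cancel_left]))
  have hb' : (NW t h : ℝ) ≤ (cc κ + ε') * Real.log t + C := hb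
  have e1 : cc κ + ε' = θ - ε' := by rw [hε']; ring
  rw [e1] at hb'
  have h5 : (|C| + 1) / ε' * ε' = |C| + 1 := div_mul_cancel₀ _ hε'0.ne'
  have h6 := le_abs_self C
  nlinarith

/-- a general upper bound for the number of zeros in a window -/
theorem window_all : ∃ h K : ℝ, 0 < h ∧ 0 ≤ K ∧ ∀ T : ℝ, 1 ≤ T → (NW T h : ℝ) ≤ K * (1 + Real.log T) := by
  obtain ⟨h, C, hh, H⟩ := window (κ := 1 / 6) (ε := 1) (by norm_num) (by norm_num) growth_weyl one_pos
  have hcc : 0 ≤ cc (1 / 6) := by unfold Pool.Agent.TH809.MZ.cc; positivity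
  refine ⟨h, cc (1 / 6) + 1 + |C|, hh, by positivity, fun T hT => ?_⟩
  have h1 : (NW T h : ℝ) ≤ (cc (1 / 6) + 1) * Real.log T + C := (H T hT).2
  have h2 := Real.log_nonneg hT
  have h3 := le_abs_self C
  have h4 := abs_nonneg C
  nlinarith [mul_nonneg h4 h2]

/-- the multiplicity of a high zero -/
theorem mm_lt : ∃ T0 : ℝ, 1 ≤ T0 ∧ ∀ t : ℝ, T0 ≤ t → riemannZeta ⟨1 / 2, t⟩ = 0 →
    (mm t : ℝ) < 1 / (2 * π) * Real.log t := by
  have hcc : cc (1 / 6) < 1 / (2 * π) := by
    unfold Pool.Agent.TH809.MZ.cc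
    rw [div_lt_div_iff₀ Real.pi_pos (by positivity)]
    have h1 : Real.sqrt (2 * (1 / 6) * (1 - 2 * (1 / 6))) < 1 / 2 := by
      rw [Real.sqrt_lt' (by norm_num)]; norm_num
    nlinarith [Real.pi_pos]
  set ε : ℝ := (1 / (2 * π) - cc (1 / 6)) / 2 with hε
  have hε0 : 0 < ε := by rw [hε]; linarith
  obtain ⟨h, C, hh, H⟩ := window (κ := 1 / 6) (by norm_num) (by norm_num) growth_weyl hε0
  refine ⟨Real.exp ((|C| + 1) / ε), Real.one_le_exp (by positivity), fun t ht hz => ?_⟩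
  have hq : 0 ≤ (|C| + 1) / ε := by positivity
  have ht1 : 1 ≤ t := (Real.one_le_exp hq).trans ht
  have ht0 : 0 < t := by linarith
  have hlog : (|C| + 1) / ε ≤ Real.log t := by
    rw [Real.le_log_iff_exp_le ht0]
    linarith
  have h1 : (NW t h : ℝ) ≤ (cc (1 / 6) + ε) * Real.log t + C := (H t ht1).2
  have h2 : mm t ≤ NW t h := by
    have := sum_le_NW (t := t) (le_refl h) {t} (by
      intro u hu
      rw [Finset.mem_singleton] at hu
      subst hu
      exact ⟨hz, by rw [sub_self, abs_zero]; exact hh.le⟩)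
    rwa [Finset.sum_singleton] at this
  have h3 : (mm t : ℝ) ≤ NW t h := by exact_mod_cast h2
  have e1 : cc (1 / 6) + ε = 1 / (2 * π) - ε := by rw [hε]; ring
  rw [e1] at h1
  rw [div_le_iff₀ hε0] at hlog
  have h6 := le_abs_self C
  nlinarith

/-- counting by integration -/
theorem count_le : ∃ hw K : ℝ, 0 < hw ∧ 0 ≤ K ∧ ∀ h1 X : ℝ, 0 < h1 → h1 ≤ hw → 1 ≤ X → h1 ≤ X →
    ∀ (S : Finset ℝ) (E : Set ℝ), (∀ t ∈ S, 2 * X < t ∧ t ≤ 4 * X ∧ riemannZeta ⟨1 / 2, t⟩ = 0) →
    (∀ t ∈ S, ∀ u : ℝ, |u - t| ≤ h1 → u ∈ E) →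
    ENNReal.ofReal (2 * h1) * ((∑ t ∈ S, mm t : ℕ) : ℝ≥0∞) ≤
      ENNReal.ofReal (K * (1 + Real.log (8 * X))) * volume E := by
  obtain ⟨hw, K, hhw, hK, hN⟩ := window_all
  refine ⟨hw, K, hhw, hK, fun h1 X hh1 hh1w hX hh1X S E hS hE => ?_⟩
  set E' : Set ℝ := toMeasurable volume E with hE'
  have hEE' : E ⊆ E' := subset_toMeasurable _ _
  set c : ℝ≥0∞ := ENNReal.ofReal (K * (1 + Real.log (8 * X))) with hc
  have e1 : ENNReal.ofReal (2 * h1) * ((∑ t ∈ S, mm t : ℕ) : ℝ≥0∞) =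
      ∫⁻ u, ∑ t ∈ S, (mm t : ℝ≥0∞) * (Icc (t - h1) (t + h1)).indicator 1 u := by
    rw [lintegral_finsetSum]
    · push_cast
      rw [Finset.mul_sum]
      refine Finset.sum_congr rfl fun t _ => ?_
      rw [lintegral_const_mul _ (measurable_one.indicator measurableSet_Icc),
        lintegral_indicator_one measurableSet_Icc, Real.volume_Icc, mul_comm]
      congr 2
      ring
    · intro t _
      exact (measurable_one.indicator measurableSet_Icc).const_mul _
  rw [e1]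
  calc ∫⁻ u, ∑ t ∈ S, (mm t : ℝ≥0∞) * (Icc (t - h1) (t + h1)).indicator 1 u
      ≤ ∫⁻ u, c * E'.indicator 1 u := by
        refine lintegral_mono fun u => ?_
        classical
        set S' : Finset ℝ := S.filter fun t => |t - u| ≤ h1 with hS'
        have h2 : ∑ t ∈ S, (mm t : ℝ≥0∞) * (Icc (t - h1) (t + h1)).indicator 1 u =
            ((∑ t ∈ S', mm t : ℕ) : ℝ≥0∞) := by
          rw [hS', Finset.sum_filter]
          push_cast
          refine Finset.sum_congr rfl fun t _ => ?_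
          by_cases h3 : |t - u| ≤ h1
          · rw [if_pos h3, indicator_of_mem, Pi.one_apply, mul_one]
            have := abs_le.1 h3
            constructor <;> linarith
          · rw [if_neg h3, indicator_of_notMem, mul_zero]
            intro h4
            apply h3
            rw [abs_le]
            constructor <;> linarith [h4.1, h4.2]
        rw [h2]
        rcases S'.eq_empty_or_nonempty with h3 | ⟨t0, ht0⟩
        · rw [h3]; simp
        · have h4 := Finset.mem_filter.1 ht0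
          have h5 := hS t0 h4.1
          have h6 := abs_le.1 h4.2
          have hu : u ∈ E := hE t0 h4.1 u (by rw [abs_sub_comm]; exact h4.2)
          rw [indicator_of_mem (hEE' hu), Pi.one_apply, mul_one]
          have h7 : ∑ t ∈ S', mm t ≤ NW u hw := by
            refine sum_le_NW hh1w S' fun t ht => ?_
            have h8 := Finset.mem_filter.1 ht
            exact ⟨(hS t h8.1).2.2, h8.2⟩
          have hu1 : 1 ≤ u := by linarith
          have h8 := hN u hu1
          have h9 : ((∑ t ∈ S', mm t : ℕ) : ℝ) ≤ K * (1 + Real.log (8 * X)) := by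
            calc ((∑ t ∈ S', mm t : ℕ) : ℝ) ≤ (NW u hw : ℝ) := by exact_mod_cast h7
              _ ≤ K * (1 + Real.log u) := h8
              _ ≤ _ := by
                  have : Real.log u ≤ Real.log (8 * X) :=
                    Real.log_le_log (by linarith) (by linarith [h5.2.1])
                  gcongr
          calc ((∑ t ∈ S', mm t : ℕ) : ℝ≥0∞) = ENNReal.ofReal ((∑ t ∈ S', mm t : ℕ) : ℝ) := by
                rw [ENNReal.ofReal_natCast]
            _ ≤ c := ENNReal.ofReal_le_ofReal h9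
    _ = c * volume E' := by
        rw [lintegral_const_mul _ (measurable_one.indicator (measurableSet_toMeasurable _ _)),
          lintegral_indicator_one (measurableSet_toMeasurable _ _)]
    _ = c * volume E := by rw [hE', measure_toMeasurable]

/-- the zeros of large multiplicity in a dyadic interval -/
theorem mult_dyadic {θ ε : ℝ} (h0 : 0 ≤ θ) (h1 : θ < 1 / (2 * π)) (hε : 0 < ε) : ∃ X0 : ℝ, 1 ≤ X0 ∧
    ∀ X : ℝ, X0 ≤ X → ∀ S : Finset ℝ, (∀ t ∈ S, X < t ∧ t ≤ 2 * X ∧ riemannZeta ⟨1 / 2, t⟩ = 0 ∧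
      θ * Real.log t ≤ mm t) → ((∑ t ∈ S, mm t : ℕ) : ℝ) ≤ X ^ (ss θ + ε) := by
  obtain ⟨hw, K, hhw, hK, hcount⟩ := count_le
  -- the exceptional set
  obtain ⟨h, hh, X1, hX11, hbig⟩ : ∃ h : ℝ, 0 < h ∧ ∃ X0 : ℝ, 1 ≤ X0 ∧ ∀ X : ℝ, X0 ≤ X →
      volume {t : ℝ | X ≤ t ∧ t ≤ 8 * X ∧ θ * Real.log t - 1 ≤ (NW t h : ℝ)} ≤
        ENNReal.ofReal (7 * X ^ (ss θ + ε / 2)) := by
    rcases h0.eq_or_lt with h2 | h2
    · subst h2
      refine ⟨1, one_pos, 1, le_rfl, fun X hX => ?_⟩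
      rw [ss_zero]
      calc volume {t : ℝ | X ≤ t ∧ t ≤ 8 * X ∧ 0 * Real.log t - 1 ≤ (NW t 1 : ℝ)}
          ≤ volume (Icc X (8 * X)) := measure_mono fun t ht => ⟨ht.1, ht.2.1⟩
        _ = ENNReal.ofReal (7 * X ^ (1:ℝ)) := by rw [Real.volume_Icc, Real.rpow_one]; congr 1; ring
        _ ≤ _ := by
            apply ENNReal.ofReal_le_ofReal
            have := Real.rpow_le_rpow_of_exponent_le hX (by linarith : (1:ℝ) ≤ 1 + ε / 2)
            linarith
    · obtain ⟨h, hh, X0, hX0, H⟩ := big_le h2 h1 (half_pos hε)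
      refine ⟨h, hh, X0, hX0, fun X hX => (H X hX).trans (ENNReal.ofReal_le_ofReal ?_)⟩
      have : 0 ≤ X ^ (ss θ + ε / 2) := Real.rpow_nonneg (by linarith) _
      linarith
  set h1' : ℝ := min 1 (min h hw) with hh1'
  have hp : 0 < h1' := by positivity
  have hev : ∀ᶠ X : ℝ in atTop, K * (1 + Real.log (8 * X)) * 7 ≤ 2 * h1' * X ^ (ε / 2) := by
    have h2 : ∀ᶠ X : ℝ in atTop, Real.log X ≤ X ^ (ε / 4) := by
      have := (isLittleO_log_rpow_atTop (by positivity : 0 < ε / 4)).bound one_pos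
      filter_upwards [this, eventually_ge_atTop 1] with X hX hX1
      rw [one_mul, Real.norm_of_nonneg (Real.log_nonneg hX1),
        Real.norm_of_nonneg (by positivity)] at hX
      exact hX
    have h3 : ∀ᶠ X : ℝ in atTop, K * 63 / (2 * h1') ≤ X ^ (ε / 4) :=
      (tendsto_rpow_atTop (by positivity : 0 < ε / 4)).eventually_ge_atTop _
    filter_upwards [h2, h3, eventually_ge_atTop (Real.exp 1)] with X g1 g2 g3
    have hX1 : 1 ≤ X := le_trans (Real.one_le_exp (by norm_num)) g3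
    have hX0 : 0 < X := by linarith
    have hl1 : 1 ≤ Real.log X := by rw [Real.le_log_iff_exp_le hX0]; exact g3
    have hl8 : Real.log (8 * X) ≤ 7 + Real.log X := by
      rw [Real.log_mul (by norm_num) hX0.ne']
      have := Real.log_le_sub_one_of_pos (by norm_num : (0:ℝ) < 8)
      linarith
    rw [div_le_iff₀ (by positivity)] at g2
    have hp4 : 0 ≤ X ^ (ε / 4) := by positivity
    calc K * (1 + Real.log (8 * X)) * 7 ≤ K * (9 * X ^ (ε / 4)) * 7 := by
          gcongr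
          linarith
      _ = (K * 63) * X ^ (ε / 4) := by ring
      _ ≤ (X ^ (ε / 4) * (2 * h1')) * X ^ (ε / 4) := by gcongr
      _ = 2 * h1' * (X ^ (ε / 4) * X ^ (ε / 4)) := by ring
      _ = 2 * h1' * X ^ (ε / 2) := by
          rw [← Real.rpow_add hX0]
          congr 2
          ring
  obtain ⟨X2, hX2⟩ := eventually_atTop.1 hev
  refine ⟨max (2 * X1) (max (2 * X2) 2), le_trans (by norm_num) ((le_max_right _ _).trans (le_max_right _ _)),
    fun Y hY S hS => ?_⟩
  set X : ℝ := Y / 2 with hXdef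
  have hY1 : 2 * X1 ≤ Y := (le_max_left _ _).trans hY
  have hY2 : 2 * X2 ≤ Y := ((le_max_left _ _).trans (le_max_right _ _)).trans hY
  have hY3 : 2 ≤ Y := ((le_max_right _ _).trans (le_max_right _ _)).trans hY
  have hX1' : 1 ≤ X := by rw [hXdef]; linarith
  have hXpos : 0 < X := by linarith
  have hpi : (1:ℝ) / (2 * π) < 1 := by
    rw [div_lt_one (by positivity)]
    linarith [Real.pi_gt_three]
  have hc := hcount h1' X hp ((min_le_right _ _).trans (min_le_right _ _)) hX1'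
    ((min_le_left _ _).trans hX1') S
    {t : ℝ | X ≤ t ∧ t ≤ 8 * X ∧ θ * Real.log t - 1 ≤ (NW t h : ℝ)}
    (fun t ht => ⟨by rw [hXdef]; linarith [(hS t ht).1], by rw [hXdef]; linarith [(hS t ht).2.1],
      (hS t ht).2.2.1⟩) (by
      intro t ht u hu
      obtain ⟨g1, g2, g3, g4⟩ := hS t ht
      have hu' := abs_le.1 hu
      have hh11 : h1' ≤ 1 := min_le_left _ _
      have ht2 : 2 * X < t := by rw [hXdef]; linarith
      have ht4 : t ≤ 4 * X := by rw [hXdef]; linarith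
      refine ⟨by linarith, by linarith, ?_⟩
      have h5 : mm t ≤ NW u h := by
        have := sum_le_NW (t := u) (h := h) (h' := h1') ((min_le_right _ _).trans (min_le_left _ _)) {t} (by
          intro v hv
          rw [Finset.mem_singleton] at hv
          subst hv
          exact ⟨g3, by rw [abs_sub_comm]; exact hu⟩)
        rwa [Finset.sum_singleton] at this
      have h6 : (mm t : ℝ) ≤ NW u h := by exact_mod_cast h5
      have ht0 : 0 < t := by linarith
      have hu0 : 0 < u := by linarith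
      have h7 : Real.log u ≤ Real.log t + 1 := by
        have h8 : u ≤ t * Real.exp 1 := by
          have := Real.add_one_le_exp (1:ℝ)
          nlinarith
        calc Real.log u ≤ Real.log (t * Real.exp 1) := Real.log_le_log hu0 h8
          _ = _ := by rw [Real.log_mul ht0.ne' (Real.exp_pos _).ne', Real.log_exp]
      nlinarith)
  have hvol := hbig X (by rw [hXdef]; linarith)
  have hev2 := hX2 X (by rw [hXdef]; linarith)
  have hl0 : 0 ≤ Real.log (8 * X) := Real.log_nonneg (by linarith)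
  have hfin : ENNReal.ofReal (2 * h1') * ((∑ t ∈ S, mm t : ℕ) : ℝ≥0∞) ≤
      ENNReal.ofReal (K * (1 + Real.log (8 * X)) * (7 * X ^ (ss θ + ε / 2))) := by
    refine hc.trans ?_
    rw [ENNReal.ofReal_mul (p := K * (1 + Real.log (8 * X))) (by positivity)]
    gcongr
  rw [← ENNReal.ofReal_natCast, ← ENNReal.ofReal_mul (by positivity),
    ENNReal.ofReal_le_ofReal_iff (by positivity)] at hfin
  have h9 : 2 * h1' * ((∑ t ∈ S, mm t : ℕ) : ℝ) ≤ 2 * h1' * X ^ (ss θ + ε) := by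
    calc _ ≤ _ := hfin
      _ = (K * (1 + Real.log (8 * X)) * 7) * X ^ (ss θ + ε / 2) := by ring
      _ ≤ (2 * h1' * X ^ (ε / 2)) * X ^ (ss θ + ε / 2) := by gcongr
      _ = 2 * h1' * (X ^ (ε / 2) * X ^ (ss θ + ε / 2)) := by ring
      _ = _ := by
          rw [← Real.rpow_add hXpos]
          congr 2
          ring
  have h10 : ((∑ t ∈ S, mm t : ℕ) : ℝ) ≤ X ^ (ss θ + ε) := le_of_mul_le_mul_left h9 (by positivity)
  refine h10.trans ?_
  have := ss_pos h0 h1
  apply Real.rpow_le_rpow hXpos.le (by rw [hXdef]; linarith) (by positivity)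

end

end Pool.Agent.Y757.LM
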