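import Mathlib
import Pool.Agent.TH809.MZ.Fin

set_option autoImplicit false

/-!
The number of zeros of zeta with ordinate near `T`, when zeta is small on the critical line near
`T` only.
-/

open Complex Filter Topology Set

namespace Pool.Agent.Y757.LM

open Pool.Agent.TH809.MZ

/-- the local bound for zeta -/
theorem zeta_count_loc {κ ε : ℝ} (h0 : 0 ≤ κ) (h1 : κ ≤ 1 / 4) (hε : 0 < ε) :
    ∃ h C : ℝ, 0 < h ∧ ∀ T : ℝ, 1 ≤ T → 4 ≤ Real.log T →
      (∀ y : ℝ, |y| ≤ Real.log T → ‖riemannZeta ⟨1 / 2, T + y⟩‖ ≤ T ^ κ) →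
      ∀ S : Finset ℂ, (∀ x ∈ S, |x.re| ≤ 1 / 2 ∧ |x.im| ≤ h) →
      ∑ x ∈ S, (analyticOrderNatAt (fT T) x : ℝ) ≤ (cc κ + ε) * Real.log T + C := by
  obtain ⟨δ, ε₂, h, hδ0, hδ1, hε₂0, hε₂1, hh0, H⟩ := mult_final h0 h1 hε
  obtain ⟨C0, hC0⟩ := growth_weyl 1 one_pos
  obtain ⟨A1, hA1, a1, a2, a3, a4⟩ := zeta_left (x := 1 / 2 + δ) (by linarith) (by linarith)
  obtain ⟨A2, hA2, b1, b2, b3, b4⟩ := zeta_left (x := 1 / 2 + δ / 2) (by linarith) (by linarith)
  set κ' : ℝ := κ + ε₂ / 2 with hκ'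
  have hκ'0 : 0 < κ' := by positivity
  have hκ'1 : κ' ≤ 1 := by rw [hκ']; linarith
  set C1 : ℝ := max C0 1 with hC1
  have hC11 : 1 ≤ C1 := le_max_right _ _
  have hC1' : ∀ t : ℝ, ‖riemannZeta ⟨1 / 2, t⟩‖ ≤ C1 * (1 + |t|) ^ (2:ℝ) := fun t =>
    (hC0 t).trans (mul_le_mul (le_max_left _ _) (Real.rpow_le_rpow_of_exponent_le
      (by linarith [abs_nonneg t]) (by norm_num)) (by positivity) (by positivity))
  -- the constant
  set A : ℝ := (8 * C1 * Real.exp 9) ^ 2 + (100 * A1 * Real.exp 20) ^ 2 + A2 ^ 2 with hA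
  have hA1' : 1 ≤ A := by
    have : 1 ≤ A2 ^ 2 := by nlinarith
    have h3 : 0 ≤ (8 * C1 * Real.exp 9) ^ 2 := sq_nonneg _
    have h4 : 0 ≤ (100 * A1 * Real.exp 20) ^ 2 := sq_nonneg _
    linarith
  obtain ⟨C, hC⟩ := H A hA1'
  refine ⟨h, C, hh0, fun T hT hlog hloc S hS => ?_⟩
  have hT0 : 0 < T := by linarith
  apply hC T hT (fT T) (fT_diff T) S hS
  · -- boundedness in the strip
    obtain ⟨D, k, hD, hgr⟩ := H448R2.GC.zeta_one_growth (1 / 4)
    refine ⟨D * (2 * T) ^ (k:ℝ) * Real.exp ((k:ℝ) ^ 2) * (Real.exp 1 / T), fun z hz => ?_⟩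
    have hz' := abs_le.1 hz
    have e1 : ‖fT T z‖ = ‖ZE ((1 / 2 + T * I) + z)‖ * (Real.exp (z.re ^ 2) * Real.exp (-z.im ^ 2) / T) := by
      unfold fT
      rw [norm_mul, norm_div, norm_exp_sq, Complex.norm_real, Real.norm_eq_abs, abs_of_pos hT0]
    rw [e1]
    have h3 := hgr ((1 / 2 + T * I) + z) (by simp; linarith) (by simp; linarith)
    have e2 : ((1 / 2 + T * I) + z).im = T + z.im := by simp
    rw [e2] at h3
    have h4 : ‖ZE ((1 / 2 + T * I) + z)‖ ≤ D * ((2 * T) ^ (k:ℝ) * (1 + |z.im|) ^ (k:ℝ)) := by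
      refine h3.trans ?_
      apply mul_le_mul_of_nonneg_left _ hD.le
      rw [← Real.mul_rpow (by positivity) (by positivity), Real.rpow_natCast]
      exact pow_le_pow_left₀ (by positivity) (one_add_le hT) k
    have h5 : Real.exp (z.re ^ 2) ≤ Real.exp 1 := by
      apply Real.exp_le_exp.2
      nlinarith [abs_nonneg z.re, sq_abs z.re]
    have h6 := pow_gauss (Nat.cast_nonneg k) z.im
    calc ‖ZE ((1 / 2 + T * I) + z)‖ * (Real.exp (z.re ^ 2) * Real.exp (-z.im ^ 2) / T)
        ≤ (D * ((2 * T) ^ (k:ℝ) * (1 + |z.im|) ^ (k:ℝ))) *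
          (Real.exp 1 * Real.exp (-z.im ^ 2) / T) := by gcongr
      _ = D * (2 * T) ^ (k:ℝ) * ((1 + |z.im|) ^ (k:ℝ) * Real.exp (-z.im ^ 2)) * (Real.exp 1 / T) := by
          ring
      _ ≤ D * (2 * T) ^ (k:ℝ) * Real.exp ((k:ℝ) ^ 2) * (Real.exp 1 / T) := by gcongr
  · -- the critical line
    have hTκ : 1 ≤ T ^ κ' := Real.one_le_rpow hT hκ'0.le
    have key : ∀ z : ℂ, z.re = 0 → ‖fT T z‖ ≤ 8 * C1 * Real.exp 9 * T ^ κ' := by
      intro z hz
      rw [fT_norm hT (by rw [hz]; norm_num), hz]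
      have h4 : ‖(⟨0 - 1 / 2, T + z.im⟩ : ℂ)‖ ≤ 2 * T * (1 + |z.im|) := by
        refine (norm_mk_le _ _).trans ?_
        have : |(0:ℝ) - 1 / 2| ≤ 1 := by rw [abs_le]; constructor <;> norm_num
        linarith [one_add_le (T := T) (y := z.im) hT]
      have e0 : (1 / 2 + (0:ℝ)) = 1 / 2 := by norm_num
      rw [e0, zero_pow (by norm_num), Real.exp_zero, one_mul]
      have hy0 := abs_nonneg z.im
      rcases le_or_gt |z.im| (Real.log T) with hy | hy
      · have h3 := hloc z.im hy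
        have h5 : T ^ κ ≤ T ^ κ' := Real.rpow_le_rpow_of_exponent_le hT (by rw [hκ']; linarith)
        have h6 := pow_gauss (r := 1) (by norm_num) z.im
        rw [Real.rpow_one] at h6
        calc ‖(⟨0 - 1 / 2, T + z.im⟩ : ℂ)‖ * ‖riemannZeta ⟨1 / 2, T + z.im⟩‖ *
              (Real.exp (-z.im ^ 2) / T)
            ≤ (2 * T * (1 + |z.im|)) * T ^ κ' * (Real.exp (-z.im ^ 2) / T) := by
              apply mul_le_mul_of_nonneg_right _ (by positivity)
              exact mul_le_mul h4 (h3.trans h5) (norm_nonneg _) (by positivity)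
          _ = 2 * T ^ κ' * ((1 + |z.im|) * Real.exp (-z.im ^ 2)) := by
              field_simp
          _ ≤ 2 * T ^ κ' * Real.exp (1 ^ 2) := mul_le_mul_of_nonneg_left h6 (by positivity)
          _ ≤ 2 * T ^ κ' * Real.exp 9 := by
              apply mul_le_mul_of_nonneg_left _ (by positivity)
              exact Real.exp_le_exp.2 (by norm_num)
          _ = 2 * 1 * Real.exp 9 * T ^ κ' := by ring
          _ ≤ 8 * C1 * Real.exp 9 * T ^ κ' := by gcongr; norm_num
      · have h3 := hC1' (T + z.im)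
        have h5 : (1 + |T + z.im|) ^ (2:ℝ) ≤ (2 * T * (1 + |z.im|)) ^ 2 := by
          rw [Real.rpow_two]
          exact pow_le_pow_left₀ (by positivity) (one_add_le hT) 2
        -- `T ^ 2` is absorbed
        have h6 : T ^ 2 * Real.exp (-z.im ^ 2) ≤ Real.exp (-(z.im ^ 2 / 2)) := by
          have e1 : T ^ 2 = Real.exp (2 * Real.log T) := by
            rw [mul_comm, Real.exp_mul, Real.exp_log hT0, Real.rpow_two]
          rw [e1, ← Real.exp_add]
          apply Real.exp_le_exp.2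
          have h7 : Real.log T * Real.log T ≤ |z.im| * |z.im| :=
            mul_le_mul hy.le hy.le (by linarith) hy0
          rw [← sq, ← sq, sq_abs] at h7
          nlinarith
        have h7 : (1 + |z.im|) ^ 3 * Real.exp (-(z.im ^ 2 / 2)) ≤ Real.exp 9 := by
          have e1 : 1 + |z.im| ≤ Real.exp |z.im| := by linarith [Real.add_one_le_exp |z.im|]
          have e2 : (1 + |z.im|) ^ 3 ≤ Real.exp (3 * |z.im|) := by
            calc (1 + |z.im|) ^ 3 ≤ (Real.exp |z.im|) ^ 3 := pow_le_pow_left₀ (by positivity) e1 3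
              _ = _ := by rw [← Real.exp_nat_mul]; norm_num
          calc (1 + |z.im|) ^ 3 * Real.exp (-(z.im ^ 2 / 2))
              ≤ Real.exp (3 * |z.im|) * Real.exp (-(z.im ^ 2 / 2)) :=
                mul_le_mul_of_nonneg_right e2 (Real.exp_pos _).le
            _ = Real.exp (3 * |z.im| + -(z.im ^ 2 / 2)) := (Real.exp_add _ _).symm
            _ ≤ Real.exp 9 := by
                apply Real.exp_le_exp.2
                have := sq_abs z.im
                nlinarith [sq_nonneg (|z.im| - 3)]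
        calc ‖(⟨0 - 1 / 2, T + z.im⟩ : ℂ)‖ * ‖riemannZeta ⟨1 / 2, T + z.im⟩‖ *
              (Real.exp (-z.im ^ 2) / T)
            ≤ (2 * T * (1 + |z.im|)) * (C1 * (2 * T * (1 + |z.im|)) ^ 2) *
              (Real.exp (-z.im ^ 2) / T) := by
              apply mul_le_mul_of_nonneg_right _ (by positivity)
              apply mul_le_mul h4 _ (norm_nonneg _) (by positivity)
              exact h3.trans (mul_le_mul_of_nonneg_left h5 (by positivity))
          _ = 8 * C1 * (1 + |z.im|) ^ 3 * (T ^ 2 * Real.exp (-z.im ^ 2)) := by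
              field_simp
              ring
          _ ≤ 8 * C1 * (1 + |z.im|) ^ 3 * Real.exp (-(z.im ^ 2 / 2)) :=
              mul_le_mul_of_nonneg_left h6 (by positivity)
          _ = 8 * C1 * ((1 + |z.im|) ^ 3 * Real.exp (-(z.im ^ 2 / 2))) * 1 := by ring
          _ ≤ 8 * C1 * Real.exp 9 * T ^ κ' := by gcongr
    intro z hz
    have h3 := key z hz
    have h4 := key (-z) (by rw [neg_re, hz, neg_zero])
    have h5 : T ^ κ' * T ^ κ' = T ^ (2 * κ + ε₂) := by
      rw [← Real.rpow_add hT0]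
      congr 1
      rw [hκ']; ring
    calc ‖fT T z‖ * ‖fT T (-z)‖ ≤ (8 * C1 * Real.exp 9 * T ^ κ') * (8 * C1 * Real.exp 9 * T ^ κ') :=
          mul_le_mul h3 h4 (norm_nonneg _) (by positivity)
      _ = (8 * C1 * Real.exp 9) ^ 2 * T ^ (2 * κ + ε₂) := by rw [← h5]; ring
      _ ≤ A * T ^ (2 * κ + ε₂) := by
          apply mul_le_mul_of_nonneg_right _ (by positivity)
          have h6 : 0 ≤ A2 ^ 2 := sq_nonneg _
          have h7 : 0 ≤ (100 * A1 * Real.exp 20) ^ 2 := sq_nonneg _
          rw [hA]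
          linarith
  · -- the boundary of the strip
    intro z hz
    set b : ℝ := 1 / 2 + δ with hb
    have hb1 : b ≤ 3 / 4 := by rw [hb]; linarith
    have hb0 : 1 / 2 < b := by rw [hb]; linarith
    have hbsq : b ^ 2 ≤ 1 := by nlinarith
    -- right side
    have h3 : ‖fT T z‖ ≤ 10 * A1 * Real.exp 10 := by
      rw [fT_norm hT (by rw [hz]; linarith), hz]
      have h4 : ‖(⟨b - 1 / 2, T + z.im⟩ : ℂ)‖ ≤ 2 * T * (1 + |z.im|) := by
        refine (norm_mk_le _ _).trans ?_
        have : |b - 1 / 2| ≤ 1 := by rw [abs_le]; constructor <;> linarith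
        linarith [one_add_le (T := T) (y := z.im) hT]
      have h6 := pow_gauss (r := 1) (by norm_num) z.im
      rw [Real.rpow_one] at h6
      calc ‖(⟨b - 1 / 2, T + z.im⟩ : ℂ)‖ * ‖riemannZeta ⟨1 / 2 + b, T + z.im⟩‖ *
            (Real.exp (b ^ 2) * Real.exp (-z.im ^ 2) / T)
          ≤ (2 * T * (1 + |z.im|)) * A1 * (Real.exp 1 * Real.exp (-z.im ^ 2) / T) := by
            apply mul_le_mul _ _ (by positivity) (by positivity)
            · exact mul_le_mul h4 (a1 _) (norm_nonneg _) (by positivity)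
            · have := Real.exp_le_exp.2 hbsq
              gcongr
        _ = 2 * A1 * Real.exp 1 * ((1 + |z.im|) * Real.exp (-z.im ^ 2)) := by
            field_simp
        _ ≤ 2 * A1 * Real.exp 1 * Real.exp (1 ^ 2) := mul_le_mul_of_nonneg_left h6 (by positivity)
        _ = 2 * A1 * Real.exp 2 := by
            rw [mul_assoc, ← Real.exp_add]
            norm_num
        _ ≤ 2 * A1 * Real.exp 10 := by
            apply mul_le_mul_of_nonneg_left _ (by positivity)
            exact Real.exp_le_exp.2 (by norm_num)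
        _ ≤ _ := by
            have : 0 ≤ A1 * Real.exp 10 := by positivity
            linarith
    have h4 : ‖fT T (-z)‖ ≤ 100 * A1 * Real.exp 10 * T ^ b := by
      rw [fT_norm hT (by rw [neg_re, hz]; linarith), neg_re, neg_im, hz]
      have h4 : ‖(⟨-b - 1 / 2, T + -z.im⟩ : ℂ)‖ ≤ 4 * T * (1 + |z.im|) := by
        refine (norm_mk_le _ _).trans ?_
        have h5 : |-b - 1 / 2| ≤ 2 := by rw [abs_le]; constructor <;> linarith
        have h6 := one_add_le (T := T) (y := -z.im) hT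
        rw [abs_neg] at h6
        have h7 := abs_nonneg (T + -z.im)
        linarith
      have h5 : (1 + |T + -z.im|) ^ b ≤ 2 * (T ^ b * (1 + |z.im|) ^ b) := by
        have h6 := one_add_le (T := T) (y := -z.im) hT
        rw [abs_neg] at h6
        calc (1 + |T + -z.im|) ^ b ≤ (2 * T * (1 + |z.im|)) ^ b :=
              Real.rpow_le_rpow (by positivity) h6 (by linarith)
          _ = 2 ^ b * (T ^ b * (1 + |z.im|) ^ b) := by
              rw [mul_assoc, Real.mul_rpow (by norm_num) (by positivity),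
                Real.mul_rpow (by positivity) (by positivity)]
          _ ≤ 2 ^ (1:ℝ) * (T ^ b * (1 + |z.im|) ^ b) := by
              apply mul_le_mul_of_nonneg_right _ (by positivity)
              exact Real.rpow_le_rpow_of_exponent_le (by norm_num) (by linarith)
          _ = _ := by rw [Real.rpow_one]
      have h6 := pow_gauss (r := 1 + b) (by linarith) z.im
      have e1 : (1 + |z.im|) * (1 + |z.im|) ^ b = (1 + |z.im|) ^ (1 + b) := by
        rw [Real.rpow_add (by positivity) 1 b, Real.rpow_one]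
      have e2 : (-b) ^ 2 = b ^ 2 := by ring
      have e3 : (-(-z.im) ^ 2) = -z.im ^ 2 := by ring
      have e0 : (1 / 2 + -b) = 1 / 2 - b := by ring
      rw [e2, e0, neg_sq]
      have h7 := a3 (T + -z.im)
      calc ‖(⟨-b - 1 / 2, T + -z.im⟩ : ℂ)‖ * ‖riemannZeta ⟨1 / 2 - b, T + -z.im⟩‖ *
            (Real.exp (b ^ 2) * Real.exp (-z.im ^ 2) / T)
          ≤ (4 * T * (1 + |z.im|)) * (A1 * (2 * (T ^ b * (1 + |z.im|) ^ b))) *
            (Real.exp 1 * Real.exp (-z.im ^ 2) / T) := by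
            apply mul_le_mul _ _ (by positivity) (by positivity)
            · apply mul_le_mul h4 _ (norm_nonneg _) (by positivity)
              exact h7.trans (mul_le_mul_of_nonneg_left h5 (by positivity))
            · have := Real.exp_le_exp.2 hbsq
              gcongr
        _ = 8 * A1 * Real.exp 1 * T ^ b * (((1 + |z.im|) * (1 + |z.im|) ^ b) * Real.exp (-z.im ^ 2)) := by
            field_simp
            ring
        _ ≤ 8 * A1 * Real.exp 1 * T ^ b * Real.exp ((1 + b) ^ 2) := by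
            rw [e1]
            exact mul_le_mul_of_nonneg_left h6 (by positivity)
        _ = 8 * A1 * Real.exp (1 + (1 + b) ^ 2) * T ^ b := by
            rw [Real.exp_add]; ring
        _ ≤ 8 * A1 * Real.exp 10 * T ^ b := by
            have : Real.exp (1 + (1 + b) ^ 2) ≤ Real.exp 10 := by
              apply Real.exp_le_exp.2
              nlinarith
            gcongr
        _ ≤ _ := by
            have : 0 ≤ A1 * Real.exp 10 * T ^ b := by positivity
            linarith
    have h5 : T ^ b ≤ T ^ (b + ε₂) := Real.rpow_le_rpow_of_exponent_le hT (by linarith)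
    have h6 : Real.exp 10 * Real.exp 10 = Real.exp 20 := by rw [← Real.exp_add]; norm_num
    have h8 : 1 ≤ Real.exp 20 := Real.one_le_exp (by norm_num)
    calc ‖fT T z‖ * ‖fT T (-z)‖ ≤ (10 * A1 * Real.exp 10) * (100 * A1 * Real.exp 10 * T ^ b) :=
          mul_le_mul h3 h4 (norm_nonneg _) (by positivity)
      _ = 1000 * A1 ^ 2 * (Real.exp 10 * Real.exp 10) * T ^ b := by ring
      _ = 1000 * A1 ^ 2 * Real.exp 20 * T ^ b := by rw [h6]
      _ ≤ (100 * A1 * Real.exp 20) ^ 2 * T ^ b := by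
          apply mul_le_mul_of_nonneg_right _ (by positivity)
          have : (100 * A1 * Real.exp 20) ^ 2 = 10000 * A1 ^ 2 * (Real.exp 20 * Real.exp 20) := by ring
          rw [this]
          have h9 : Real.exp 20 ≤ Real.exp 20 * Real.exp 20 := by nlinarith
          have h10 : 0 < A1 ^ 2 := by positivity
          nlinarith [mul_le_mul_of_nonneg_left h9 h10.le]
      _ ≤ A * T ^ (b + ε₂) := by
          apply mul_le_mul _ h5 (by positivity) (by linarith)
          have h6 : 0 ≤ A2 ^ 2 := sq_nonneg _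
          have h7 : 0 ≤ (8 * C1 * Real.exp 9) ^ 2 := sq_nonneg _
          rw [hA]
          linarith
  · -- the lower bound
    set x0 : ℝ := 1 / 2 + δ / 2 with hx0
    have hx00 : 1 / 2 < x0 := by rw [hx0]; linarith
    have key : ∀ x : ℝ, x ≠ 1 / 2 → ‖riemannZeta ⟨1 / 2 + x, T⟩‖ ≤ ‖fT T (x:ℂ)‖ := by
      intro x hx
      rw [fT_norm hT (by simpa using hx)]
      simp only [ofReal_re, ofReal_im, add_zero]
      have h3 : T ≤ ‖(⟨x - 1 / 2, T⟩ : ℂ)‖ := by
        have := Complex.abs_im_le_norm (⟨x - 1 / 2, T⟩ : ℂ)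
        exact (le_abs_self T).trans this
      have h4 : 1 ≤ Real.exp (x ^ 2) := Real.one_le_exp (sq_nonneg _)
      have h5 : Real.exp (-(0:ℝ) ^ 2) = 1 := by norm_num
      rw [h5, mul_one]
      calc ‖riemannZeta ⟨1 / 2 + x, T⟩‖ = T * ‖riemannZeta ⟨1 / 2 + x, T⟩‖ * (1 / T) := by field_simp
        _ ≤ ‖(⟨x - 1 / 2, T⟩ : ℂ)‖ * ‖riemannZeta ⟨1 / 2 + x, T⟩‖ * (Real.exp (x ^ 2) / T) := by gcongr
    have h3 := (b2 T).trans (key x0 (by linarith))
    have h4 : T ^ x0 / A2 ≤ ‖fT T (-(x0:ℂ))‖ := by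
      have h5 := key (-x0) (by linarith)
      rw [ofReal_neg] at h5
      refine le_trans ?_ h5
      have h6 := b4 T hT
      have e : (1 / 2 + -x0) = 1 / 2 - x0 := by ring
      rw [e]
      exact h6
    calc A⁻¹ * T ^ (x0 - ε₂) ≤ (A2 ^ 2)⁻¹ * T ^ x0 := by
          apply mul_le_mul _ _ (by positivity) (by positivity)
          · apply inv_anti₀ (by positivity)
            have h6 : 0 ≤ (100 * A1 * Real.exp 20) ^ 2 := sq_nonneg _
            have h7 : 0 ≤ (8 * C1 * Real.exp 9) ^ 2 := sq_nonneg _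
            rw [hA]
            linarith
          · exact Real.rpow_le_rpow_of_exponent_le hT (by linarith)
      _ = (1 / A2) * (T ^ x0 / A2) := by
          have : A2 ≠ 0 := by positivity
          field_simp
      _ ≤ _ := mul_le_mul h3 h4 (by positivity) (norm_nonneg _)

/-- **the number of zeros in a short window** -/
theorem window_loc {κ ε : ℝ} (h0 : 0 ≤ κ) (h1 : κ ≤ 1 / 4) (hε : 0 < ε) :
    ∃ h C : ℝ, 0 < h ∧ ∀ T : ℝ, 1 ≤ T → 4 ≤ Real.log T →
      (∀ y : ℝ, |y| ≤ Real.log T → ‖riemannZeta ⟨1 / 2, T + y⟩‖ ≤ T ^ κ) → (ZZ T h).Finite ∧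
      ((∑ᶠ s ∈ ZZ T h, analyticOrderNatAt riemannZeta s : ℕ) : ℝ) ≤ (cc κ + ε) * Real.log T + C := by
  classical
  obtain ⟨h, C, hh, H⟩ := zeta_count_loc h0 h1 hε
  refine ⟨h, C, hh, fun T hT hlog hloc => ?_⟩
  have hT0 : 0 < T := by linarith
  have hne : ∀ s ∈ ZZ T h, s ≠ 1 := by
    intro s hs h
    have := hs.2.2.1
    rw [h, one_re] at this
    exact lt_irrefl _ this
  -- finite subsets
  have hfin : ∀ F : Finset ℂ, (F : Set ℂ) ⊆ ZZ T h →
      ∑ s ∈ F, (analyticOrderNatAt riemannZeta s : ℝ) ≤ (cc κ + ε) * Real.log T + C := by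
    intro F hF
    have h2 := H T hT hlog hloc (F.image fun s => s - (1 / 2 + T * I)) (by
      intro x hx
      obtain ⟨s, hs, rfl⟩ := Finset.mem_image.1 hx
      have h3 := hF hs
      have e1 : (s - (1 / 2 + T * I)).re = s.re - 1 / 2 := by simp
      have e2 : (s - (1 / 2 + T * I)).im = s.im - T := by simp
      rw [e1, e2]
      refine ⟨?_, h3.2.2.2⟩
      have h4 := h3.2.1
      have h5 := h3.2.2.1
      rw [abs_le]
      constructor <;> linarith)
    rw [Finset.sum_image (fun x _ y _ hxy => sub_left_injective hxy)] at h2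
    refine le_trans (le_of_eq ?_) h2
    apply Finset.sum_congr rfl
    intro s hs
    unfold analyticOrderNatAt
    rw [order_fT hT0 (hne s (hF hs))]
  have hone : ∀ s ∈ ZZ T h, (1:ℝ) ≤ (analyticOrderNatAt riemannZeta s : ℝ) := by
    intro s hs
    have ha4 : AnalyticAt ℂ riemannZeta s := by
      have : DifferentiableOn ℂ riemannZeta ({1}ᶜ : Set ℂ) := fun z hz =>
        (differentiableAt_riemannZeta hz).differentiableWithinAt
      exact this.analyticAt (isOpen_compl_singleton.mem_nhds (hne s hs))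
    have h2 : analyticOrderAt riemannZeta s ≠ 0 := ha4.analyticOrderAt_ne_zero.2 hs.1
    have h3 := order_ne_top (hne s hs)
    have h4 : analyticOrderNatAt riemannZeta s ≠ 0 := by
      intro h5
      apply h2
      rw [← Nat.cast_analyticOrderNatAt h3, h5]
      rfl
    exact_mod_cast Nat.one_le_iff_ne_zero.2 h4
  have hZfin : (ZZ T h).Finite := by
    by_contra hinf
    have hinf' : (ZZ T h).Infinite := hinf
    obtain ⟨n, hn⟩ := exists_nat_gt ((cc κ + ε) * Real.log T + C)
    obtain ⟨F, hF, hcard⟩ := hinf'.exists_subset_card_eq n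
    have h2 := hfin F hF
    have h3 : (n:ℝ) ≤ ∑ s ∈ F, (analyticOrderNatAt riemannZeta s : ℝ) := by
      calc (n:ℝ) = ∑ _s ∈ F, (1:ℝ) := by rw [Finset.sum_const, hcard]; simp
        _ ≤ _ := Finset.sum_le_sum fun s hs => hone s (hF hs)
    linarith
  refine ⟨hZfin, ?_⟩
  rw [finsum_mem_eq_finite_toFinset_sum _ hZfin]
  push_cast
  apply hfin
  intro s hs
  exact (hZfin.mem_toFinset).1 hs

end Pool.Agent.Y757.LM

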