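import Pool.Agent.Y757.LM.Main

set_option autoImplicit false

/-! Sums over the zeros on the critical line. -/

namespace Pool.Agent.Y757.LM

open MeasureTheory Set Filter Topology Real

noncomputable section

/-- from dyadic intervals to all of `(0, T]` -/
theorem from_dyadic {w : ℝ → ℝ} (hw : ∀ t, 0 ≤ w t) {P : ℝ → Prop} {a X0 : ℝ} (ha : 0 < a)
    (hX0 : 1 ≤ X0) (hfin : ∀ T : ℝ, {t : ℝ | 0 < t ∧ t ≤ T ∧ P t}.Finite)
    (h : ∀ X : ℝ, X0 ≤ X → ∀ S : Finset ℝ, (∀ t ∈ S, X < t ∧ t ≤ 2 * X ∧ P t) → ∑ t ∈ S, w t ≤ X ^ a) :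
    ∃ C : ℝ, 0 ≤ C ∧ ∀ T : ℝ, 1 ≤ T → ∀ S : Finset ℝ, (∀ t ∈ S, 0 < t ∧ t ≤ T ∧ P t) →
      ∑ t ∈ S, w t ≤ C * T ^ a := by
  classical
  set B : ℝ := ∑ t ∈ (hfin (2 * X0)).toFinset, w t with hB
  have hB0 : 0 ≤ B := Finset.sum_nonneg fun t _ => hw t
  have h2a : 1 < (2:ℝ) ^ a := Real.one_lt_rpow (by norm_num) ha
  set C : ℝ := B + 1 / ((2:ℝ) ^ a - 1) with hC
  have hC0 : 0 ≤ C := by
    have : 0 < (2:ℝ) ^ a - 1 := by linarith
    positivity
  have hC1 : C + 1 ≤ C * (2:ℝ) ^ a := by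
    have h1 : 0 < (2:ℝ) ^ a - 1 := by linarith
    have h2 : 1 ≤ C * ((2:ℝ) ^ a - 1) := by
      calc (1:ℝ) = 1 / ((2:ℝ) ^ a - 1) * ((2:ℝ) ^ a - 1) := by field_simp
        _ ≤ C * ((2:ℝ) ^ a - 1) := by
            gcongr
            rw [hC]; linarith
    linarith
  have key : ∀ n : ℕ, ∀ T : ℝ, 1 ≤ T → T ≤ 2 ^ n * X0 → ∀ S : Finset ℝ,
      (∀ t ∈ S, 0 < t ∧ t ≤ T ∧ P t) → ∑ t ∈ S, w t ≤ C * T ^ a := by
    intro n
    induction n with
    | zero =>
      intro T hT hTn S hS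
      rw [pow_zero, one_mul] at hTn
      have h1 : ∑ t ∈ S, w t ≤ B := by
        apply Finset.sum_le_sum_of_subset_of_nonneg
        · intro t ht
          rw [Set.Finite.mem_toFinset]
          obtain ⟨g1, g2, g3⟩ := hS t ht
          exact ⟨g1, by linarith, g3⟩
        · intro t _ _
          exact hw t
      have h2 : 1 ≤ T ^ a := Real.one_le_rpow hT ha.le
      have h3 : B ≤ C := by
        have : 0 < (2:ℝ) ^ a - 1 := by linarith
        have : 0 < 1 / ((2:ℝ) ^ a - 1) := by positivity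
        linarith
      nlinarith
    | succ n ih =>
      intro T hT hTn S hS
      rcases le_or_gt T (2 * X0) with h1 | h1
      · have h1 : ∑ t ∈ S, w t ≤ B := by
          apply Finset.sum_le_sum_of_subset_of_nonneg
          · intro t ht
            rw [Set.Finite.mem_toFinset]
            obtain ⟨g1, g2, g3⟩ := hS t ht
            exact ⟨g1, by linarith, g3⟩
          · intro t _ _
            exact hw t
        have h2 : 1 ≤ T ^ a := Real.one_le_rpow hT ha.le
        have h3 : B ≤ C := by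
          have : 0 < (2:ℝ) ^ a - 1 := by linarith
          have : 0 < 1 / ((2:ℝ) ^ a - 1) := by positivity
          linarith
        nlinarith
      · have hX : X0 ≤ T / 2 := by linarith
        have h2 := ih (T / 2) (by linarith) (by rw [pow_succ] at hTn; linarith)
          (S.filter fun t => t ≤ T / 2) (by
            intro t ht
            rw [Finset.mem_filter] at ht
            obtain ⟨g1, g2, g3⟩ := hS t ht.1
            exact ⟨g1, ht.2, g3⟩)
        have h3 := h (T / 2) hX (S.filter fun t => ¬ t ≤ T / 2) (by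
            intro t ht
            rw [Finset.mem_filter] at ht
            obtain ⟨g1, g2, g3⟩ := hS t ht.1
            exact ⟨not_le.1 ht.2, by linarith, g3⟩)
        rw [← Finset.sum_filter_add_sum_filter_not S (fun t => t ≤ T / 2)]
        have hT2 : 0 ≤ (T / 2) ^ a := Real.rpow_nonneg (by linarith) _
        have e : T ^ a = (2:ℝ) ^ a * (T / 2) ^ a := by
          rw [← Real.mul_rpow (by norm_num) (by linarith)]
          congr 1
          ring
        rw [e]
        nlinarith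
  refine ⟨C, hC0, fun T hT S hS => ?_⟩
  obtain ⟨n, hn⟩ := pow_unbounded_of_one_lt T (by norm_num : (1:ℝ) < 2)
  refine key n T hT ?_ S hS
  have : (0:ℝ) < 2 ^ n := by positivity
  nlinarith

/-- finiteness of the zeros on the critical line up to height `T` -/
theorem crit_finite (T : ℝ) : {t : ℝ | 0 < t ∧ t ≤ T ∧ riemannZeta ⟨1 / 2, t⟩ = 0}.Finite := by
  have hinj : Function.Injective fun t : ℝ => (⟨1 / 2, t⟩ : ℂ) := by
    intro x y hxy
    have := congrArg Complex.im hxy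
    simpa using this
  apply Set.Finite.of_finite_image (f := fun t : ℝ => (⟨1 / 2, t⟩ : ℂ)) _ hinj.injOn
  refine (ZZ_finite T T).subset ?_
  rintro _ ⟨t, ⟨h1, h2, h3⟩, rfl⟩
  refine ⟨h3, by norm_num, by norm_num, ?_⟩
  rw [abs_le]
  constructor
  · show -T ≤ t - T
    linarith
  · show t - T ≤ T
    linarith

/-- the zeros of large multiplicity up to height `T` -/
theorem mult_all {θ ε : ℝ} (h0 : 0 ≤ θ) (h1 : θ < 1 / (2 * π)) (hε : 0 < ε) : ∃ T0 : ℝ, 1 ≤ T0 ∧
    ∀ T : ℝ, T0 ≤ T → ∀ S : Finset ℝ, (∀ t ∈ S, 0 < t ∧ t ≤ T ∧ riemannZeta ⟨1 / 2, t⟩ = 0 ∧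
      θ * Real.log t ≤ mm t) → ((∑ t ∈ S, mm t : ℕ) : ℝ) ≤ T ^ (ss θ + ε) := by
  obtain ⟨X0, hX0, H⟩ := mult_dyadic h0 h1 (half_pos hε)
  have hs := ss_pos h0 h1
  obtain ⟨C, hC, hall⟩ := from_dyadic (w := fun t => (mm t : ℝ)) (fun t => Nat.cast_nonneg _)
    (P := fun t => riemannZeta ⟨1 / 2, t⟩ = 0 ∧ θ * Real.log t ≤ mm t) (a := ss θ + ε / 2)
    (by positivity) hX0 (fun T => (crit_finite T).subset fun t ht => ⟨ht.1, ht.2.1, ht.2.2.1⟩)
    (fun X hX S hS => by
      have := H X hX S hS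
      push_cast at this
      exact this)
  have hev : ∀ᶠ T : ℝ in atTop, C ≤ T ^ (ε / 2) :=
    (tendsto_rpow_atTop (by positivity : 0 < ε / 2)).eventually_ge_atTop C
  obtain ⟨T1, hT1⟩ := eventually_atTop.1 hev
  refine ⟨max T1 1, le_max_right _ _, fun T hT S hS => ?_⟩
  have hT1' : 1 ≤ T := (le_max_right _ _).trans hT
  have h2 := hall T hT1' S hS
  have h3 := hT1 T ((le_max_left _ _).trans hT)
  push_cast
  calc ∑ t ∈ S, (mm t : ℝ) ≤ C * T ^ (ss θ + ε / 2) := h2
    _ ≤ T ^ (ε / 2) * T ^ (ss θ + ε / 2) := by gcongr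
    _ = _ := by
        rw [← Real.rpow_add (by linarith)]
        congr 1
        ring

/-- the conjugate exponent -/
def ee (lam : ℝ) : ℝ := Real.sqrt (1 + lam ^ 2 / (4 * π ^ 2))

lemma ss_add_le {θ lam : ℝ} (h0 : 0 ≤ θ) (h1 : θ < 1 / (2 * π)) :
    ss θ + lam * θ ≤ ee lam := by
  have hpi := Real.pi_pos
  have hs := ss_sq h0 h1
  unfold ee
  apply Real.le_sqrt_of_sq_le
  set x : ℝ := 2 * π * θ with hx
  set y : ℝ := lam / (2 * π) with hy
  have e1 : lam * θ = x * y := by rw [hx, hy]; field_simp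
  have e2 : lam ^ 2 / (4 * π ^ 2) = y ^ 2 := by rw [hy]; ring
  have e3 : ss θ ^ 2 = 1 - x ^ 2 := by rw [hs, hx]; ring
  rw [e1, e2]
  nlinarith [sq_nonneg (ss θ * y - x)]

/-- sums of exponentials of the multiplicities, dyadic -/
theorem exp_dyadic {lam ε : ℝ} (hl : 0 ≤ lam) (hε : 0 < ε) : ∃ X0 : ℝ, 1 ≤ X0 ∧
    ∀ X : ℝ, X0 ≤ X → ∀ S : Finset ℝ, (∀ t ∈ S, X < t ∧ t ≤ 2 * X ∧ riemannZeta ⟨1 / 2, t⟩ = 0) →
      ∑ t ∈ S, Real.exp (lam * mm t) ≤ X ^ (ee lam + ε) := by
  classical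
  have hpi := Real.pi_pos
  obtain ⟨K, hK⟩ := exists_nat_gt (lam / (2 * π) / (ε / 4))
  have hq : 0 ≤ lam / (2 * π) / (ε / 4) := by positivity
  have hK0 : (0:ℝ) < K := by linarith
  have hKn : 0 < K := by exact_mod_cast hK0
  have hKε : lam * (1 / (2 * π * K)) ≤ ε / 4 := by
    rw [div_lt_iff₀ (by positivity)] at hK
    have : lam * (1 / (2 * π * K)) = lam / (2 * π) / K := by field_simp
    rw [this, div_le_iff₀ hK0]
    linarith
  set θ : ℕ → ℝ := fun j => j / (2 * π * K) with hθ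
  have hθ0 : ∀ j, 0 ≤ θ j := fun j => by simp only [hθ]; positivity
  have hθ1 : ∀ j, j < K → θ j < 1 / (2 * π) := by
    intro j hj
    simp only [hθ]
    rw [div_lt_div_iff₀ (by positivity) (by positivity)]
    have : (j:ℝ) < K := by exact_mod_cast hj
    nlinarith
  have hθs : ∀ j, θ (j + 1) = θ j + 1 / (2 * π * K) := by
    intro j
    simp only [hθ]
    push_cast
    ring
  -- thresholds
  have hex : ∃ Xm : ℝ, 1 ≤ Xm ∧ ∀ j, j < K → ∀ X : ℝ, Xm ≤ X → ∀ S : Finset ℝ,
      (∀ t ∈ S, X < t ∧ t ≤ 2 * X ∧ riemannZeta ⟨1 / 2, t⟩ = 0 ∧ θ j * Real.log t ≤ mm t) →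
      ((∑ t ∈ S, mm t : ℕ) : ℝ) ≤ X ^ (ss (θ j) + ε / 4) := by
    have h1 : ∀ n, n ≤ K → ∃ Xm : ℝ, 1 ≤ Xm ∧ ∀ j, j < n → ∀ X : ℝ, Xm ≤ X → ∀ S : Finset ℝ,
      (∀ t ∈ S, X < t ∧ t ≤ 2 * X ∧ riemannZeta ⟨1 / 2, t⟩ = 0 ∧ θ j * Real.log t ≤ mm t) →
      ((∑ t ∈ S, mm t : ℕ) : ℝ) ≤ X ^ (ss (θ j) + ε / 4) := by
      intro n
      induction n with
      | zero => intro _; exact ⟨1, le_rfl, fun j hj => absurd hj (Nat.not_lt_zero j)⟩
      | succ n ih =>
        intro hn
        obtain ⟨X1, hX1, H1⟩ := ih (by omega)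
        obtain ⟨X2, hX2, H2⟩ := mult_dyadic (hθ0 n) (hθ1 n (by omega)) (ε := ε / 4) (by positivity)
        refine ⟨max X1 X2, hX1.trans (le_max_left _ _), fun j hj X hX => ?_⟩
        rcases Nat.lt_succ_iff_lt_or_eq.1 hj with h | h
        · exact H1 j h X ((le_max_left _ _).trans hX)
        · subst h
          exact H2 X ((le_max_right _ _).trans hX)
    exact h1 K le_rfl
  obtain ⟨X1, hX11, H⟩ := hex
  obtain ⟨X2, hX21, hmlt⟩ := mm_lt
  have hev : ∀ᶠ X : ℝ in atTop, K * (2:ℝ) ^ (lam / (2 * π)) ≤ X ^ (ε / 4) :=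
    (tendsto_rpow_atTop (by positivity : 0 < ε / 4)).eventually_ge_atTop _
  obtain ⟨X3, hX3⟩ := eventually_atTop.1 hev
  refine ⟨max X1 (max X2 X3), hX11.trans (le_max_left _ _), fun X hX S hS => ?_⟩
  have hXX1 : X1 ≤ X := (le_max_left _ _).trans hX
  have hXX2 : X2 ≤ X := ((le_max_left _ _).trans (le_max_right _ _)).trans hX
  have hXX3 : X3 ≤ X := ((le_max_right _ _).trans (le_max_right _ _)).trans hX
  have hX1' : 1 ≤ X := hX11.trans hXX1
  have hX0 : 0 < X := by linarith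
  -- the bound for one zero
  have hone : ∀ t ∈ S, Real.exp (lam * mm t) ≤
      ∑ j ∈ Finset.range K, if θ j * Real.log t ≤ mm t then (2 * X) ^ (lam * θ (j + 1)) else 0 := by
    intro t ht
    obtain ⟨g1, g2, g3⟩ := hS t ht
    have ht0 : 0 < t := by linarith
    have hlt : 0 < Real.log t := Real.log_pos (by linarith)
    have hm := hmlt t (by linarith) g3
    set x : ℝ := mm t * (2 * π * K) / Real.log t with hx
    have hx0 : 0 ≤ x := by positivity
    have hxK : x < K := by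
      rw [hx, div_lt_iff₀ hlt]
      calc mm t * (2 * π * K) < (1 / (2 * π) * Real.log t) * (2 * π * K) :=
            mul_lt_mul_of_pos_right hm (by positivity)
        _ = _ := by field_simp
    set j : ℕ := ⌊x⌋₊ with hj
    have hjK : j < K := (Nat.floor_lt hx0).2 hxK
    have hj1 : (j:ℝ) ≤ x := Nat.floor_le hx0
    have hj2 : x < j + 1 := Nat.lt_floor_add_one x
    have hlow : θ j * Real.log t ≤ mm t := by
      rw [hx, le_div_iff₀ hlt] at hj1
      simp only [hθ]
      rw [div_mul_eq_mul_div, div_le_iff₀ (by positivity)]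
      exact hj1
    have hup : (mm t : ℝ) ≤ θ (j + 1) * Real.log t := by
      rw [hx, div_lt_iff₀ hlt] at hj2
      simp only [hθ]
      rw [div_mul_eq_mul_div, le_div_iff₀ (by positivity)]
      push_cast
      exact hj2.le
    have hterm : Real.exp (lam * mm t) ≤ (2 * X) ^ (lam * θ (j + 1)) := by
      rw [Real.rpow_def_of_pos (by positivity)]
      apply Real.exp_le_exp.2
      have h5 : Real.log t ≤ Real.log (2 * X) := Real.log_le_log ht0 g2
      have h6 := hθ0 (j + 1)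
      calc lam * mm t ≤ lam * (θ (j + 1) * Real.log t) := by gcongr
        _ ≤ lam * (θ (j + 1) * Real.log (2 * X)) := by gcongr
        _ = _ := by ring
    refine hterm.trans ?_
    refine le_trans (le_of_eq ?_) (Finset.single_le_sum (f := fun j => if θ j * Real.log t ≤ mm t then
      (2 * X) ^ (lam * θ (j + 1)) else 0) (fun i _ => ?_) (Finset.mem_range.2 hjK))
    · rw [if_pos hlow]
    · split_ifs
      · positivity
      · exact le_rfl
  calc ∑ t ∈ S, Real.exp (lam * mm t)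
      ≤ ∑ t ∈ S, ∑ j ∈ Finset.range K, (if θ j * Real.log t ≤ mm t then (2 * X) ^ (lam * θ (j + 1)) else 0) :=
        Finset.sum_le_sum hone
    _ = ∑ j ∈ Finset.range K, ∑ t ∈ S, (if θ j * Real.log t ≤ mm t then (2 * X) ^ (lam * θ (j + 1)) else 0) :=
        Finset.sum_comm
    _ ≤ ∑ j ∈ Finset.range K, (2:ℝ) ^ (lam / (2 * π)) * X ^ (ee lam + ε / 2) := by
        refine Finset.sum_le_sum fun j hj => ?_
        have hjK := Finset.mem_range.1 hj
        rw [← Finset.sum_filter, Finset.sum_const, nsmul_eq_mul]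
        set S' := S.filter fun t => θ j * Real.log t ≤ mm t with hS'
        have hcard : (S'.card : ℝ) ≤ X ^ (ss (θ j) + ε / 4) := by
          have h1 := H j hjK X hXX1 S' (by
            intro t ht
            rw [hS', Finset.mem_filter] at ht
            obtain ⟨g1, g2, g3⟩ := hS t ht.1
            exact ⟨g1, g2, g3, ht.2⟩)
          refine le_trans ?_ h1
          have h2 : S'.card ≤ ∑ t ∈ S', mm t := by
            calc S'.card = ∑ t ∈ S', 1 := by simp
              _ ≤ _ := by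
                refine Finset.sum_le_sum fun t ht => ?_
                rw [hS', Finset.mem_filter] at ht
                exact mm_pos (hS t ht.1).2.2
          exact_mod_cast h2
        have hθj1 : lam * θ (j + 1) ≤ lam / (2 * π) := by
          have h3 : θ (j + 1) ≤ 1 / (2 * π) := by
            simp only [hθ]
            rw [div_le_div_iff₀ (by positivity) (by positivity)]
            have h4 : ((j + 1 : ℕ) : ℝ) ≤ K := by exact_mod_cast hjK
            nlinarith
          calc lam * θ (j + 1) ≤ lam * (1 / (2 * π)) := by gcongr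
            _ = _ := by ring
        have h2X : (2 * X) ^ (lam * θ (j + 1)) ≤ (2:ℝ) ^ (lam / (2 * π)) * X ^ (lam * θ j + ε / 4) := by
          rw [Real.mul_rpow (by norm_num) hX0.le]
          have h5 : lam * θ (j + 1) ≤ lam * θ j + ε / 4 := by
            rw [hθs, mul_add]
            linarith
          have h6 : (2:ℝ) ^ (lam * θ (j + 1)) ≤ (2:ℝ) ^ (lam / (2 * π)) :=
            Real.rpow_le_rpow_of_exponent_le (by norm_num) hθj1
          have h7 : X ^ (lam * θ (j + 1)) ≤ X ^ (lam * θ j + ε / 4) :=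
            Real.rpow_le_rpow_of_exponent_le hX1' h5
          gcongr
        calc (S'.card : ℝ) * (2 * X) ^ (lam * θ (j + 1))
            ≤ X ^ (ss (θ j) + ε / 4) * ((2:ℝ) ^ (lam / (2 * π)) * X ^ (lam * θ j + ε / 4)) := by gcongr
          _ = (2:ℝ) ^ (lam / (2 * π)) * (X ^ (ss (θ j) + ε / 4) * X ^ (lam * θ j + ε / 4)) := by ring
          _ = (2:ℝ) ^ (lam / (2 * π)) * X ^ ((ss (θ j) + ε / 4) + (lam * θ j + ε / 4)) := by
              rw [← Real.rpow_add hX0]
          _ ≤ _ := by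
              have h6 := ss_add_le (lam := lam) (hθ0 j) (hθ1 j hjK)
              exact mul_le_mul_of_nonneg_left (Real.rpow_le_rpow_of_exponent_le hX1' (by linarith))
                (by positivity)
    _ = (K * (2:ℝ) ^ (lam / (2 * π))) * X ^ (ee lam + ε / 2) := by
        rw [Finset.sum_const, Finset.card_range, nsmul_eq_mul]
        ring
    _ ≤ X ^ (ε / 4) * X ^ (ee lam + ε / 2) := by
        have := hX3 X hXX3
        gcongr
    _ = X ^ (ε / 4 + (ee lam + ε / 2)) := (Real.rpow_add hX0 _ _).symm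
    _ ≤ _ := Real.rpow_le_rpow_of_exponent_le hX1' (by linarith)

lemma ee_ge (lam : ℝ) : 1 ≤ ee lam := by
  unfold ee
  rw [Real.one_le_sqrt]
  have : 0 ≤ lam ^ 2 / (4 * π ^ 2) := by positivity
  linarith

/-- sums of exponentials of the multiplicities -/
theorem exp_all {lam ε : ℝ} (hl : 0 ≤ lam) (hε : 0 < ε) : ∃ T0 : ℝ, 1 ≤ T0 ∧
    ∀ T : ℝ, T0 ≤ T → ∀ S : Finset ℝ, (∀ t ∈ S, 0 < t ∧ t ≤ T ∧ riemannZeta ⟨1 / 2, t⟩ = 0) →
      ∑ t ∈ S, Real.exp (lam * mm t) ≤ T ^ (ee lam + ε) := by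
  obtain ⟨X0, hX0, H⟩ := exp_dyadic hl (half_pos hε)
  have hs := ee_ge lam
  obtain ⟨C, hC, hall⟩ := from_dyadic (w := fun t => Real.exp (lam * mm t)) (fun t => (Real.exp_pos _).le)
    (P := fun t => riemannZeta ⟨1 / 2, t⟩ = 0) (a := ee lam + ε / 2)
    (by linarith) hX0 crit_finite (fun X hX S hS => H X hX S hS)
  have hev : ∀ᶠ T : ℝ in atTop, C ≤ T ^ (ε / 2) :=
    (tendsto_rpow_atTop (by positivity : 0 < ε / 2)).eventually_ge_atTop C
  obtain ⟨T1, hT1⟩ := eventually_atTop.1 hev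
  refine ⟨max T1 1, le_max_right _ _, fun T hT S hS => ?_⟩
  have hT1' : 1 ≤ T := (le_max_right _ _).trans hT
  have h2 := hall T hT1' S hS
  have h3 := hT1 T ((le_max_left _ _).trans hT)
  calc ∑ t ∈ S, Real.exp (lam * mm t) ≤ C * T ^ (ee lam + ε / 2) := h2
    _ ≤ T ^ (ε / 2) * T ^ (ee lam + ε / 2) := by gcongr
    _ = _ := by
        rw [← Real.rpow_add (by linarith)]
        congr 1
        ring

end

end Pool.Agent.Y757.LM
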