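import Pool.Agent.Y757.LM.Sum

set_option autoImplicit false

/-! Exponential moments of the number of zeros in a short window. -/

namespace Pool.Agent.Y757.LM

open MeasureTheory Set Filter Topology Real
open scoped ENNReal
open Pool.Agent.TH809.MZ (cc window growth_weyl)

noncomputable section

/-- the number of zeros in small windows is less than `log T / (2 π)` -/
theorem NW_lt : ∃ h T0 : ℝ, 0 < h ∧ 1 ≤ T0 ∧ ∀ t : ℝ, T0 ≤ t → (NW t h : ℝ) < 1 / (2 * π) * Real.log t := by
  have hcc : cc (1 / 6) < 1 / (2 * π) := by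
    unfold Pool.Agent.TH809.MZ.cc
    rw [div_lt_div_iff₀ Real.pi_pos (by positivity)]
    have h1 : Real.sqrt (2 * (1 / 6) * (1 - 2 * (1 / 6))) < 1 / 2 := by
      rw [Real.sqrt_lt' (by norm_num)]; norm_num
    nlinarith [Real.pi_pos]
  set ε : ℝ := (1 / (2 * π) - cc (1 / 6)) / 2 with hε
  have hε0 : 0 < ε := by rw [hε]; linarith
  obtain ⟨h, C, hh, H⟩ := window (κ := 1 / 6) (by norm_num) (by norm_num) growth_weyl hε0
  have hq : 0 ≤ (|C| + 1) / ε := by positivity
  refine ⟨h, Real.exp ((|C| + 1) / ε), hh, Real.one_le_exp hq, fun t ht => ?_⟩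
  have ht1 : 1 ≤ t := (Real.one_le_exp hq).trans ht
  have ht0 : 0 < t := by linarith
  have hlog : (|C| + 1) / ε ≤ Real.log t := by
    rw [Real.le_log_iff_exp_le ht0]
    linarith
  have h1 : (NW t h : ℝ) ≤ (cc (1 / 6) + ε) * Real.log t + C := (H t ht1).2
  have e1 : cc (1 / 6) + ε = 1 / (2 * π) - ε := by rw [hε]; ring
  rw [e1] at h1
  rw [div_le_iff₀ hε0] at hlog
  have h6 := le_abs_self C
  nlinarith

/-- **exponential moments of the number of zeros in a short window** -/
theorem exp_window {lam ε : ℝ} (hl : 0 ≤ lam) (hε : 0 < ε) : ∃ h : ℝ, 0 < h ∧ ∃ X0 : ℝ, 1 ≤ X0 ∧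
    ∀ X : ℝ, X0 ≤ X → ∫⁻ t in Icc X (2 * X), ENNReal.ofReal (Real.exp (lam * NW t h)) ≤
      ENNReal.ofReal (X ^ (ee lam + ε)) := by
  classical
  have hpi := Real.pi_pos
  obtain ⟨K, hK⟩ := exists_nat_gt (lam / (2 * π) / (ε / 4))
  have hq : 0 ≤ lam / (2 * π) / (ε / 4) := by positivity
  have hK0 : (0:ℝ) < K := by linarith
  have hKn : 0 < K := by exact_mod_cast hK0
  have hKε : lam * (1 / (2 * π * K)) ≤ ε / 4 := by
    rw [div_lt_iff₀ (by positivity)] at hK
    have : lam * (1 / (2 * π * K)) = lam / (2 * π) / K := by field_simp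
    rw [this, div_le_iff₀ hK0]
    linarith
  set θ : ℕ → ℝ := fun j => j / (2 * π * K) with hθ
  have hθ0 : ∀ j, 0 ≤ θ j := fun j => by simp only [hθ]; positivity
  have hθ1 : ∀ j, j < K → θ j < 1 / (2 * π) := by
    intro j hj
    simp only [hθ]
    rw [div_lt_div_iff₀ (by positivity) (by positivity)]
    have : (j:ℝ) < K := by exact_mod_cast hj
    nlinarith
  have hθs : ∀ j, θ (j + 1) = θ j + 1 / (2 * π * K) := by
    intro j
    simp only [hθ]
    push_cast
    ring
  -- thresholds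
  obtain ⟨hw, Tw, hhw, hTw, hNW⟩ := NW_lt
  have hex : ∀ n, n ≤ K → ∃ h : ℝ, 0 < h ∧ h ≤ hw ∧ ∃ Xm : ℝ, 1 ≤ Xm ∧ ∀ j, j < n → ∀ X : ℝ, Xm ≤ X →
      volume {t : ℝ | X ≤ t ∧ t ≤ 2 * X ∧ θ j * Real.log t ≤ (NW t h : ℝ)} ≤
        ENNReal.ofReal (X ^ (ss (θ j) + ε / 4)) := by
    intro n
    induction n with
    | zero => intro _; exact ⟨hw, hhw, le_rfl, 1, le_rfl, fun j hj => absurd hj (Nat.not_lt_zero j)⟩
    | succ n ih =>
      intro hn
      obtain ⟨h1, hh1, hhw1, X1, hX1, H1⟩ := ih (by omega)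
      obtain ⟨h2, hh2, X2, hX2, H2⟩ : ∃ h : ℝ, 0 < h ∧ ∃ X0 : ℝ, 1 ≤ X0 ∧ ∀ X : ℝ, X0 ≤ X →
          volume {t : ℝ | X ≤ t ∧ t ≤ 2 * X ∧ θ n * Real.log t ≤ (NW t h : ℝ)} ≤
            ENNReal.ofReal (X ^ (ss (θ n) + ε / 4)) := by
        rcases (hθ0 n).eq_or_lt with h2 | h2
        · refine ⟨1, one_pos, 1, le_rfl, fun X hX => ?_⟩
          rw [← h2, ss_zero]
          calc volume {t : ℝ | X ≤ t ∧ t ≤ 2 * X ∧ 0 * Real.log t ≤ (NW t 1 : ℝ)}
              ≤ volume (Icc X (2 * X)) := measure_mono fun t ht => ⟨ht.1, ht.2.1⟩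
            _ = ENNReal.ofReal (X ^ (1:ℝ)) := by rw [Real.volume_Icc, Real.rpow_one]; congr 1; ring
            _ ≤ _ := ENNReal.ofReal_le_ofReal
                (Real.rpow_le_rpow_of_exponent_le hX (by linarith))
        · obtain ⟨h, hh, X0, hX0, H⟩ := big_le h2 (hθ1 n (by omega)) (ε := ε / 4) (by positivity)
          refine ⟨h, hh, X0, hX0, fun X hX => (measure_mono fun t ht => ?_).trans (H X hX)⟩
          exact ⟨ht.1, by linarith [ht.2.1, ht.1], by linarith [ht.2.2]⟩
      refine ⟨min h1 h2, lt_min hh1 hh2, (min_le_left _ _).trans hhw1, max X1 X2,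
        hX1.trans (le_max_left _ _), fun j hj X hX => ?_⟩
      rcases Nat.lt_succ_iff_lt_or_eq.1 hj with h | h
      · refine (measure_mono fun t ht => ?_).trans (H1 j h X ((le_max_left _ _).trans hX))
        refine ⟨ht.1, ht.2.1, ht.2.2.trans ?_⟩
        exact_mod_cast NW_mono (min_le_left _ _)
      · subst h
        refine (measure_mono fun t ht => ?_).trans (H2 X ((le_max_right _ _).trans hX))
        refine ⟨ht.1, ht.2.1, ht.2.2.trans ?_⟩
        exact_mod_cast NW_mono (min_le_right _ _)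
  obtain ⟨h, hh, hhw', X1, hX11, H⟩ := hex K le_rfl
  have hev : ∀ᶠ X : ℝ in atTop, K * (2:ℝ) ^ (lam / (2 * π)) ≤ X ^ (ε / 4) :=
    (tendsto_rpow_atTop (by positivity : 0 < ε / 4)).eventually_ge_atTop _
  obtain ⟨X3, hX3⟩ := eventually_atTop.1 hev
  refine ⟨h, hh, max X1 (max (max Tw 2) X3), hX11.trans (le_max_left _ _), fun X hX => ?_⟩
  have hXX1 : X1 ≤ X := (le_max_left _ _).trans hX
  have hXX2 : max Tw 2 ≤ X := ((le_max_left _ _).trans (le_max_right _ _)).trans hX
  have hXX3 : X3 ≤ X := ((le_max_right _ _).trans (le_max_right _ _)).trans hX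
  have hXT : Tw ≤ X := (le_max_left _ _).trans hXX2
  have hX2 : 2 ≤ X := (le_max_right _ _).trans hXX2
  have hX1' : 1 ≤ X := by linarith
  have hX0 : 0 < X := by linarith
  set E : ℕ → Set ℝ := fun j =>
    toMeasurable volume {t : ℝ | X ≤ t ∧ t ≤ 2 * X ∧ θ j * Real.log t ≤ (NW t h : ℝ)} with hE
  have hEm : ∀ j, MeasurableSet (E j) := fun j => measurableSet_toMeasurable _ _
  have hEv : ∀ j, j < K → volume (E j) ≤ ENNReal.ofReal (X ^ (ss (θ j) + ε / 4)) := fun j hj => by
    simp only [hE]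
    rw [measure_toMeasurable]
    exact H j hj X hXX1
  -- the bound for one point
  have hone : ∀ t ∈ Icc X (2 * X), ENNReal.ofReal (Real.exp (lam * NW t h)) ≤
      ∑ j ∈ Finset.range K, ENNReal.ofReal ((2 * X) ^ (lam * θ (j + 1))) * (E j).indicator 1 t := by
    intro t ht
    have ht0 : 0 < t := by linarith [ht.1]
    have hlt : 0 < Real.log t := Real.log_pos (by linarith [ht.1])
    have hm : (NW t h : ℝ) < 1 / (2 * π) * Real.log t := by
      refine lt_of_le_of_lt ?_ (hNW t (by linarith [ht.1]))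
      exact_mod_cast NW_mono hhw'
    set x : ℝ := NW t h * (2 * π * K) / Real.log t with hx
    have hx0 : 0 ≤ x := by positivity
    have hxK : x < K := by
      rw [hx, div_lt_iff₀ hlt]
      calc NW t h * (2 * π * K) < (1 / (2 * π) * Real.log t) * (2 * π * K) :=
            mul_lt_mul_of_pos_right hm (by positivity)
        _ = _ := by field_simp
    set j : ℕ := ⌊x⌋₊ with hj
    have hjK : j < K := (Nat.floor_lt hx0).2 hxK
    have hj1 : (j:ℝ) ≤ x := Nat.floor_le hx0
    have hj2 : x < j + 1 := Nat.lt_floor_add_one x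
    have hlow : θ j * Real.log t ≤ NW t h := by
      rw [hx, le_div_iff₀ hlt] at hj1
      simp only [hθ]
      rw [div_mul_eq_mul_div, div_le_iff₀ (by positivity)]
      exact hj1
    have hup : (NW t h : ℝ) ≤ θ (j + 1) * Real.log t := by
      rw [hx, div_lt_iff₀ hlt] at hj2
      simp only [hθ]
      rw [div_mul_eq_mul_div, le_div_iff₀ (by positivity)]
      push_cast
      exact hj2.le
    have hterm : Real.exp (lam * NW t h) ≤ (2 * X) ^ (lam * θ (j + 1)) := by
      rw [Real.rpow_def_of_pos (by positivity)]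
      apply Real.exp_le_exp.2
      have h5 : Real.log t ≤ Real.log (2 * X) := Real.log_le_log ht0 ht.2
      have h6 := hθ0 (j + 1)
      calc lam * NW t h ≤ lam * (θ (j + 1) * Real.log t) := by gcongr
        _ ≤ lam * (θ (j + 1) * Real.log (2 * X)) := by gcongr
        _ = _ := by ring
    have hmem : t ∈ E j := subset_toMeasurable _ _ ⟨ht.1, ht.2, hlow⟩
    refine (ENNReal.ofReal_le_ofReal hterm).trans ?_
    refine le_trans (le_of_eq ?_) (Finset.single_le_sum (f := fun j =>
      ENNReal.ofReal ((2 * X) ^ (lam * θ (j + 1))) * (E j).indicator 1 t) (fun i _ => bot_le)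
      (Finset.mem_range.2 hjK))
    show _ = ENNReal.ofReal ((2 * X) ^ (lam * θ (j + 1))) * (E j).indicator 1 t
    rw [indicator_of_mem hmem, Pi.one_apply, mul_one]
  calc ∫⁻ t in Icc X (2 * X), ENNReal.ofReal (Real.exp (lam * NW t h))
      ≤ ∫⁻ t in Icc X (2 * X), ∑ j ∈ Finset.range K,
          ENNReal.ofReal ((2 * X) ^ (lam * θ (j + 1))) * (E j).indicator 1 t :=
        setLIntegral_mono' measurableSet_Icc hone
    _ ≤ ∫⁻ t, ∑ j ∈ Finset.range K,
          ENNReal.ofReal ((2 * X) ^ (lam * θ (j + 1))) * (E j).indicator 1 t := setLIntegral_le_lintegral _ _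
    _ = ∑ j ∈ Finset.range K, ENNReal.ofReal ((2 * X) ^ (lam * θ (j + 1))) * volume (E j) := by
        rw [lintegral_finsetSum]
        · refine Finset.sum_congr rfl fun j _ => ?_
          rw [lintegral_const_mul _ (measurable_one.indicator (hEm j)), lintegral_indicator_one (hEm j)]
        · intro j _
          exact (measurable_one.indicator (hEm j)).const_mul _
    _ ≤ ∑ j ∈ Finset.range K, ENNReal.ofReal ((2:ℝ) ^ (lam / (2 * π)) * X ^ (ee lam + ε / 2)) := by
        refine Finset.sum_le_sum fun j hj => ?_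
        have hjK := Finset.mem_range.1 hj
        refine (mul_le_mul_right (hEv j hjK) _).trans ?_
        rw [← ENNReal.ofReal_mul (by positivity)]
        apply ENNReal.ofReal_le_ofReal
        have hθj1 : lam * θ (j + 1) ≤ lam / (2 * π) := by
          have h3 : θ (j + 1) ≤ 1 / (2 * π) := by
            simp only [hθ]
            rw [div_le_div_iff₀ (by positivity) (by positivity)]
            have h4 : ((j + 1 : ℕ) : ℝ) ≤ K := by exact_mod_cast hjK
            nlinarith
          calc lam * θ (j + 1) ≤ lam * (1 / (2 * π)) := by gcongr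
            _ = _ := by ring
        have h2X : (2 * X) ^ (lam * θ (j + 1)) ≤ (2:ℝ) ^ (lam / (2 * π)) * X ^ (lam * θ j + ε / 4) := by
          rw [Real.mul_rpow (by norm_num) hX0.le]
          have h5 : lam * θ (j + 1) ≤ lam * θ j + ε / 4 := by
            rw [hθs, mul_add]
            linarith
          have h6 : (2:ℝ) ^ (lam * θ (j + 1)) ≤ (2:ℝ) ^ (lam / (2 * π)) :=
            Real.rpow_le_rpow_of_exponent_le (by norm_num) hθj1
          have h7 : X ^ (lam * θ (j + 1)) ≤ X ^ (lam * θ j + ε / 4) :=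
            Real.rpow_le_rpow_of_exponent_le hX1' h5
          gcongr
        calc (2 * X) ^ (lam * θ (j + 1)) * X ^ (ss (θ j) + ε / 4)
            ≤ ((2:ℝ) ^ (lam / (2 * π)) * X ^ (lam * θ j + ε / 4)) * X ^ (ss (θ j) + ε / 4) := by gcongr
          _ = (2:ℝ) ^ (lam / (2 * π)) * (X ^ (ss (θ j) + ε / 4) * X ^ (lam * θ j + ε / 4)) := by ring
          _ = (2:ℝ) ^ (lam / (2 * π)) * X ^ ((ss (θ j) + ε / 4) + (lam * θ j + ε / 4)) := by
              rw [← Real.rpow_add hX0]
          _ ≤ _ := by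
              have h6 := ss_add_le (lam := lam) (hθ0 j) (hθ1 j hjK)
              exact mul_le_mul_of_nonneg_left (Real.rpow_le_rpow_of_exponent_le hX1' (by linarith))
                (by positivity)
    _ = ENNReal.ofReal ((K * (2:ℝ) ^ (lam / (2 * π))) * X ^ (ee lam + ε / 2)) := by
        rw [Finset.sum_const, Finset.card_range, nsmul_eq_mul, ← ENNReal.ofReal_natCast,
          ← ENNReal.ofReal_mul (by positivity)]
        congr 1
        ring
    _ ≤ ENNReal.ofReal (X ^ (ee lam + ε)) := by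
        apply ENNReal.ofReal_le_ofReal
        have := hX3 X hXX3
        calc (K * (2:ℝ) ^ (lam / (2 * π))) * X ^ (ee lam + ε / 2) ≤ X ^ (ε / 4) * X ^ (ee lam + ε / 2) := by
              gcongr
          _ = X ^ (ε / 4 + (ee lam + ε / 2)) := (Real.rpow_add hX0 _ _).symm
          _ ≤ _ := Real.rpow_le_rpow_of_exponent_le hX1' (by linarith)

end

end Pool.Agent.Y757.LM
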